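import Mathlib
import Pool.Agent.Results.MP_738270_al.SomeGenSet

/-! # Products of boundedly many palindromes -/

set_option autoImplicit false

universe u

namespace Pool.Agent.T9h90.PW

open Pool.Agent.Results.MP_738270_al.SomeGenSet
open scoped commutatorElement

variable {G : Type u} [Group G]

/-- products of at most `k` palindromes over `X` -/
def Bd (X : Set G) (k : ℕ) : Set G :=
  {g | ∃ l : List G, l.length ≤ k ∧ (∀ p ∈ l, IsPalindrome X p) ∧ l.prod = g}

variable {X : Set G}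

lemma bd_mono {j k : ℕ} (h : j ≤ k) {g : G} (hg : g ∈ Bd X j) : g ∈ Bd X k := by
  obtain ⟨l, h1, h2, h3⟩ := hg
  exact ⟨l, h1.trans h, h2, h3⟩

lemma bd_one {k : ℕ} : (1 : G) ∈ Bd X k := ⟨[], by simp, by simp, by simp⟩

lemma bd_mul {j k : ℕ} {g h : G} (hg : g ∈ Bd X j) (hh : h ∈ Bd X k) : g * h ∈ Bd X (j + k) := by
  obtain ⟨l, h1, h2, rfl⟩ := hg
  obtain ⟨m, h4, h5, rfl⟩ := hh
  refine ⟨l ++ m, by rw [List.length_append]; omega, ?_, List.prod_append⟩
  intro p hp
  rcases List.mem_append.1 hp with h | h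
  · exact h2 p h
  · exact h5 p h

lemma bd_pal {g : G} (h : IsPalindrome X g) : g ∈ Bd X 1 :=
  ⟨[g], by simp, by simpa using h, by simp⟩

lemma pal_inv {g : G} (h : IsPalindrome X g) : IsPalindrome X g⁻¹ := by
  obtain ⟨w, h1, rfl⟩ := h
  refine ⟨flip X w, ?_, ?_⟩
  · rw [← flip_reverse, h1]
  · rw [wordValue_flip, h1]

lemma bd_inv {k : ℕ} {g : G} (hg : g ∈ Bd X k) : g⁻¹ ∈ Bd X k := by
  obtain ⟨l, h1, h2, rfl⟩ := hg
  refine ⟨(l.map fun x => x⁻¹).reverse, by simpa using h1, ?_, (List.prod_inv_reverse l).symm⟩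
  intro p hp
  rw [List.mem_reverse, List.mem_map] at hp
  obtain ⟨q, hq, rfl⟩ := hp
  exact pal_inv (h2 q hq)

lemma bd_gen {x : G} (hx : x ∈ X) : x ∈ Bd X 1 := by
  have := isPalindrome_zpow X hx 1
  rw [zpow_one] at this
  exact bd_pal this

lemma conj_pal (hX : Subgroup.closure X = ⊤) {p : G} (hp : IsPalindrome X p) (v : G) :
    v * p * v⁻¹ ∈ Bd X 2 := by
  obtain ⟨w, rfl⟩ := exists_word X hX v
  obtain ⟨q, h1, rfl⟩ := hp
  have e1 : IsPalindrome X (wordValue X (w ++ q ++ w.reverse)) :=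
    ⟨_, by rw [List.reverse_append, List.reverse_append, List.reverse_reverse, h1,
      List.append_assoc], rfl⟩
  have e2 : IsPalindrome X (wordValue X (w ++ w.reverse)) :=
    ⟨_, by rw [List.reverse_append, List.reverse_reverse], rfl⟩
  have := bd_mul (bd_pal e1) (bd_pal (pal_inv e2))
  convert this using 1
  rw [wordValue_append, wordValue_append, wordValue_append]
  group

lemma bd_conj (hX : Subgroup.closure X = ⊤) {k : ℕ} {p : G} (hp : p ∈ Bd X k) (v : G) :
    v * p * v⁻¹ ∈ Bd X (2 * k) := by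
  obtain ⟨l, h1, h2, rfl⟩ := hp
  induction l generalizing k with
  | nil => simpa using bd_one
  | cons a l ih =>
    obtain ⟨j, rfl⟩ : ∃ j, k = j + 1 := ⟨k - 1, by simp at h1; omega⟩
    have hl := ih (k := j) (by simpa using h1) (fun p hp => h2 p (by simp [hp]))
    have ha := conj_pal hX (h2 a (by simp)) v
    have := bd_mul ha hl
    rw [List.prod_cons]
    refine bd_mono (j := 2 + 2 * j) (by omega) ?_
    convert this using 1
    group

lemma bd_comm (hX : Subgroup.closure X = ⊤) {k : ℕ} {p : G} (hp : p ∈ Bd X k) (v : G) :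
    ⁅v, p⁆ ∈ Bd X (3 * k) := by
  have := bd_mul (bd_conj hX hp v) (bd_inv hp)
  refine bd_mono (j := 2 * k + k) (by omega) ?_
  rwa [commutatorElement_def]

lemma bd_comm' (hX : Subgroup.closure X = ⊤) {k : ℕ} {p : G} (hp : p ∈ Bd X k) (v : G) :
    ⁅p, v⁆ ∈ Bd X (3 * k) := by
  rw [← commutatorElement_inv]
  exact bd_inv (bd_comm hX hp v)

lemma palLength_le {k : ℕ} {g : G} (hg : g ∈ Bd X k) : palLength X g ≤ k := by
  obtain ⟨l, h1, h2, h3⟩ := hg
  refine (iInf₂_le l ⟨h2, h3⟩).trans ?_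
  exact_mod_cast h1

lemma palWidth_le {k : ℕ} (h : ∀ g : G, g ∈ Bd X k) : palWidth X ≤ k :=
  iSup_le fun g => palLength_le (h g)

lemma exists_bd (hX : Subgroup.closure X = ⊤) (g : G) : ∃ k, g ∈ Bd X k := by
  have hg : g ∈ Subgroup.closure X := by rw [hX]; trivial
  induction hg using Subgroup.closure_induction with
  | mem x hx => exact ⟨1, bd_gen hx⟩
  | one => exact ⟨0, bd_one⟩
  | mul x y _ _ ihx ihy =>
    obtain ⟨j, hj⟩ := ihx
    obtain ⟨k, hk⟩ := ihy
    exact ⟨j + k, bd_mul hj hk⟩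
  | inv x _ ih =>
    obtain ⟨j, hj⟩ := ih
    exact ⟨j, bd_inv hj⟩

/-- `∏ ⁅x, s⁆` over a list of pairs `(x, s)` -/
def yy {H : Type u} [Group H] (l : List (H × H)) : H := (l.map fun p => ⁅p.1, p.2⁆).prod

/-- the quadratic correction -/
def rr {H : Type u} [Group H] : List (H × H) → H
  | [] => 1
  | p :: l => ⁅⁅p.1, p.2⁆, p.2⁆ * ⁅⁅p.1, p.2⁆, yy l⁆⁻¹ * rr l

lemma yy_map {H K : Type u} [Group H] [Group K] (f : H →* K) (l : List (H × H)) :
    f (yy l) = yy (l.map (Prod.map f f)) := by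
  induction l with
  | nil => simp [yy]
  | cons a l ih =>
    simp only [yy, List.map_cons, List.prod_cons, map_mul, map_commutatorElement] at ih ⊢
    rw [ih]
    rfl

lemma rr_map {H K : Type u} [Group H] [Group K] (f : H →* K) (l : List (H × H)) :
    f (rr l) = rr (l.map (Prod.map f f)) := by
  induction l with
  | nil => simp [rr]
  | cons a l ih =>
    simp only [rr, List.map_cons, map_mul, map_inv, map_commutatorElement, ih, yy_map]
    rfl

lemma bd_yy (hX : Subgroup.closure X = ⊤) {k : ℕ} (l : List (G × G))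
    (hl : ∀ p ∈ l, p.1 ∈ Bd X k) : yy l ∈ Bd X (3 * k * l.length) := by
  induction l with
  | nil => simpa [yy] using bd_one
  | cons a l ih =>
    have h1 := bd_comm' hX (hl a (by simp)) a.2
    have h2 := ih fun p hp => hl p (by simp [hp])
    have := bd_mul h1 h2
    refine bd_mono (j := 3 * k + 3 * k * l.length) (by simp; ring_nf; exact le_rfl) ?_
    simpa [yy] using this

lemma bd_rr (hX : Subgroup.closure X = ⊤) (l : List (G × G))
    (hl : ∀ p ∈ l, p.1 ∈ Bd X 1) : rr l ∈ Bd X (18 * l.length) := by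
  induction l with
  | nil => simpa [rr] using bd_one
  | cons a l ih =>
    have h0 := bd_comm' hX (hl a (by simp)) a.2
    have h1 := bd_comm' hX h0 a.2
    have h2 := bd_inv (bd_comm' hX h0 (yy l))
    have h3 := ih fun p hp => hl p (by simp [hp])
    have := bd_mul (bd_mul h1 h2) h3
    refine bd_mono (j := 3 * (3 * 1) + 3 * (3 * 1) + 18 * l.length)
      (by simp; ring_nf; exact le_rfl) ?_
    simpa [rr] using this

end Pool.Agent.T9h90.PW
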