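import Pool.Agent.T9h90.PW.Basic

/-! # Squares in `[B, B]` modulo `[[B, B], G]` -/

set_option autoImplicit false

universe u

namespace Pool.Agent.T9h90.PW

open scoped commutatorElement

/-- the centre, written additively -/
def Zc (H : Type u) [Group H] : Type u := Additive (Subgroup.center H)

/-- the centre is commutative -/
def cgr (H : Type u) [Group H] : CommGroup (Subgroup.center H) :=
  { (inferInstance : Group (Subgroup.center H)) with
    mul_comm := fun a b => Subtype.ext (Subgroup.mem_center_iff.1 b.2 a) }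

instance (H : Type u) [Group H] : AddCommGroup (Zc H) :=
  letI := cgr H
  inferInstanceAs (AddCommGroup (Additive (Subgroup.center H)))

/-- the element of the group -/
def Zc.val {H : Type u} [Group H] (a : Zc H) : H :=
  ((Additive.toMul (α := Subgroup.center H) a : Subgroup.center H) : H)

/-- a central element as an element of `Zc` -/
def Zc.mk {H : Type u} [Group H] (g : H) (hg : g ∈ Subgroup.center H) : Zc H :=
  Additive.ofMul (α := Subgroup.center H) ⟨g, hg⟩

section

variable {H : Type u} [Group H] (B : Subgroup H) [hB : B.Normal]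
  (hc : ⁅B, B⁆ ≤ Subgroup.center H)

lemma val_mk (g : H) (hg : g ∈ Subgroup.center H) : (Zc.mk g hg).val = g := rfl

lemma val_add (a b : Zc H) : (a + b).val = a.val * b.val := rfl

lemma val_neg (a : Zc H) : (-a).val = a.val⁻¹ := rfl

@[simp] lemma val_zero : (0 : Zc H).val = 1 := rfl

lemma val_sub (a b : Zc H) : (a - b).val = a.val * b.val⁻¹ := by
  rw [sub_eq_add_neg, val_add, val_neg]

lemma om_ext {a b : Zc H} (h : a.val = b.val) : a = b :=
  Additive.toMul.injective (Subtype.ext h)

lemma cen (a : Zc H) (g : H) : g * a.val = a.val * g :=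
  Subgroup.mem_center_iff.1 (Additive.toMul (α := Subgroup.center H) a).2 g

/-- the commutator form -/
def om (b c : B) : Zc H :=
  Zc.mk ⁅(b : H), (c : H)⁆ (hc (Subgroup.commutator_mem_commutator b.2 c.2))

/-- conjugation -/
def cj (g : H) (b : B) : B := ⟨g * b * g⁻¹, hB.conj_mem b b.2 g⟩

/-- commutator with an element of `B` -/
def nn (g : H) (b : B) : B := ⟨⁅g, (b : H)⁆, by
  rw [commutatorElement_def]
  exact B.mul_mem (hB.conj_mem b b.2 g) (B.inv_mem b.2)⟩

variable {B}

lemma om_coe (b c : B) : (om B hc b c).val = ⁅(b : H), (c : H)⁆ := rfl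

lemma om_mul_left (a b c : B) : om B hc (a * b) c = om B hc a c + om B hc b c := by
  apply om_ext
  have h := cen (om B hc b c) (a : H)
  have h' := cen (om B hc b c) (⁅(a : H), (c : H)⁆)
  rw [om_coe] at h h'
  rw [val_add, om_coe, om_coe, om_coe, Subgroup.coe_mul, h']
  have e : ⁅(a : H) * b, (c : H)⁆ = a * ⁅(b : H), (c : H)⁆ * (a : H)⁻¹ * ⁅(a : H), (c : H)⁆ := by
    simp only [commutatorElement_def]; group
  rw [e, h]
  group

lemma om_swap (a b : B) : om B hc a b = - om B hc b a := by
  apply om_ext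
  rw [val_neg, om_coe, om_coe, commutatorElement_inv]

lemma om_mul_right (a b c : B) : om B hc c (a * b) = om B hc c a + om B hc c b := by
  rw [om_swap, om_mul_left, om_swap hc a c, om_swap hc b c]
  abel

lemma om_self (a : B) : om B hc a a = 0 := by
  apply om_ext
  rw [om_coe, commutatorElement_self]
  rfl

lemma om_one_left (a : B) : om B hc 1 a = 0 := by
  apply om_ext
  rw [om_coe]
  simp

lemma om_inv_left (a b : B) : om B hc a⁻¹ b = - om B hc a b := by
  have := om_mul_left hc a a⁻¹ b
  rw [mul_inv_cancel, om_one_left] at this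
  exact (neg_eq_of_add_eq_zero_right this.symm).symm

lemma om_conj (g : H) (a b : B) : om B hc (cj B g a) (cj B g b) = om B hc a b := by
  apply om_ext
  have h := cen (om B hc a b) g
  rw [om_coe] at h ⊢
  have e : ⁅((cj B g a : B) : H), ((cj B g b : B) : H)⁆ = g * ⁅(a : H), (b : H)⁆ * g⁻¹ := by
    simp only [commutatorElement_def, cj]; group
  rw [e, h, om_coe]
  group

lemma om_congr {b b' : B} (c : B) (z : Zc H)
    (h : (b : H) = b' * z.val) : om B hc b c = om B hc b' c := by
  apply om_ext
  rw [om_coe, om_coe, h]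
  have h1 := cen z (b' : H)
  have h2 := cen z (c : H)
  have e : ⁅(b' : H) * z.val, (c : H)⁆ =
      b' * (z.val * c) * z.val⁻¹ * (b' : H)⁻¹ * (c : H)⁻¹ := by
    simp only [commutatorElement_def]; group
  rw [e, ← h2, commutatorElement_def]
  group

lemma nn_eq (g : H) (b : B) : nn B g b = cj B g b * b⁻¹ := by
  apply Subtype.ext
  simp only [nn, cj, commutatorElement_def, Subgroup.coe_mul, Subgroup.coe_inv]

lemma om_nn (g : H) (b c : B) : om B hc (nn B g b) c = om B hc (cj B g b) c - om B hc b c := by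
  rw [nn_eq, om_mul_left, om_inv_left]
  abel

lemma om_nn' (g : H) (b c : B) : om B hc c (nn B g b) = om B hc c (cj B g b) - om B hc c b := by
  rw [om_swap, om_nn, om_swap hc c (cj B g b), om_swap hc c b]
  abel

lemma cj_mul (g : H) (a b : B) : cj B g (a * b) = cj B g a * cj B g b := by
  apply Subtype.ext
  simp only [cj, Subgroup.coe_mul]
  group

variable (B)

/-- `∏ ⁅x, s⁆` in `B` -/
def YB : List (H × B) → B
  | [] => 1
  | p :: l => nn B p.1 p.2 * YB l

/-- the correction -/
def RA : List (H × B) → Zc H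
  | [] => 0
  | p :: l => om B hc (cj B p.1 p.2) p.2 - om B hc (nn B p.1 p.2) (YB B l) + RA l

variable {B}

lemma step (l : List (H × B)) (x : H) (hx : x ∈ l.map Prod.fst) (s : B) :
    ∃ l' : List (H × B), l'.map Prod.fst = l.map Prod.fst ∧
      ∃ c : Zc H,
        ((YB B l' : B) : H) = YB B l * nn B x s * c.val ∧
        RA B hc l' + om B hc (YB B l) (nn B x s) - om B hc (cj B x s) s = RA B hc l - (c + c) := by
  induction l with
  | nil => simp at hx
  | cons p l ih =>
    obtain ⟨h, t⟩ := p
    rw [List.map_cons, List.mem_cons] at hx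
    by_cases hx' : x ∈ l.map Prod.fst
    · obtain ⟨l', h1, c, h2, h3⟩ := ih hx'
      refine ⟨(h, t) :: l', by simp [h1], c, ?_, ?_⟩
      · simp only [YB, Subgroup.coe_mul, h2, mul_assoc]
      · have e1 : om B hc (nn B h t) (YB B l') =
            om B hc (nn B h t) (YB B l) + om B hc (nn B h t) (nn B x s) := by
          rw [om_swap hc _ (YB B l'), om_congr hc (b := YB B l') (b' := YB B l * nn B x s)
            (nn B h t) c (by rw [h2, Subgroup.coe_mul]), om_mul_left, om_swap hc _ (YB B l),
            om_swap hc (nn B h t) (nn B x s)]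
          abel
        have e2 : RA B hc l' = RA B hc l - (c + c) - om B hc (YB B l) (nn B x s) +
            om B hc (cj B x s) s := by rw [← h3]; abel
        simp only [RA, YB, e1, e2, om_mul_left]
        abel
    · obtain rfl : x = h := by
        rcases hx with h | h
        · exact h
        · exact absurd h hx'
      refine ⟨(x, t * s) :: l, rfl, om B hc (nn B x s) (YB B l) + om B hc t (nn B x s), ?_, ?_⟩
      · have h1 := cen (om B hc (nn B x s) (YB B l)) (YB B l : H)
        have h2 := cen (om B hc t (nn B x s)) (⁅x, (t : H)⁆ * YB B l * ⁅x, (s : H)⁆ *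
          ⁅⁅x, (s : H)⁆, ((YB B l : B) : H)⁆)
        have h3 := cen (om B hc t (nn B x s)) (⁅x, (t : H)⁆)
        have h4 := cen (om B hc (nn B x s) (YB B l)) (YB B l * ⁅x, (s : H)⁆ : H)
        simp only [om_coe] at h1 h2 h3 h4
        simp only [YB, Subgroup.coe_mul, val_add, om_coe]
        have n1 : ((nn B x s : B) : H) = ⁅x, (s : H)⁆ := rfl
        have n2 : ((nn B x t : B) : H) = ⁅x, (t : H)⁆ := rfl
        have n3 : ((nn B x (t * s) : B) : H) = ⁅x, (t : H) * s⁆ := rfl
        rw [n1] at h1 h2 h3 h4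
        rw [n1, n2, n3]
        have e : ⁅x, (t : H) * s⁆ = ⁅x, (t : H)⁆ * ⁅(t : H), ⁅x, (s : H)⁆⁆ * ⁅x, (s : H)⁆ := by
          simp only [commutatorElement_def]; group
        have e' : ⁅x, (s : H)⁆ * (YB B l : H) = ⁅⁅x, (s : H)⁆, (YB B l : H)⁆ * (YB B l) *
            ⁅x, (s : H)⁆ := by
          simp only [commutatorElement_def]; group
        calc ⁅x, (t : H) * s⁆ * (YB B l : H)
            = (⁅x, (t : H)⁆ * ⁅(t : H), ⁅x, (s : H)⁆⁆) * (⁅x, (s : H)⁆ * (YB B l : H)) := by
              rw [e]; group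
          _ = ⁅(t : H), ⁅x, (s : H)⁆⁆ * (⁅x, (t : H)⁆ * (⁅⁅x, (s : H)⁆, (YB B l : H)⁆ *
                ((YB B l) * ⁅x, (s : H)⁆))) := by
              rw [e', h3]; group
          _ = ⁅(t : H), ⁅x, (s : H)⁆⁆ * (⁅x, (t : H)⁆ * (((YB B l) * ⁅x, (s : H)⁆) *
                ⁅⁅x, (s : H)⁆, (YB B l : H)⁆)) := by rw [← h4]
          _ = ⁅(t : H), ⁅x, (s : H)⁆⁆ * (⁅x, (t : H)⁆ * YB B l * ⁅x, (s : H)⁆ *
                ⁅⁅x, (s : H)⁆, (YB B l : H)⁆) := by group
          _ = _ := by rw [← h2]; group
      · have e0 := om_conj hc x t s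
        simp only [RA, YB]
        have k1 : om B hc (nn B x (t * s)) (YB B l) = om B hc (nn B x t) (YB B l) +
            om B hc (nn B x s) (YB B l) := by
          rw [om_nn, om_nn, om_nn, cj_mul, om_mul_left, om_mul_left]
          abel
        rw [k1, cj_mul, om_mul_left, om_mul_right, om_mul_right, om_mul_left,
          om_swap hc (YB B l) (nn B x s), om_nn' hc x s (nn B x t), om_nn hc x t (cj B x s),
          om_nn hc x t s, e0, om_nn' hc x s t, om_swap hc (cj B x s) t]
        abel

/-- `P` and `W` are represented modulo the centre -/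
def Q (L : List H) (P : B) (W : Zc H) : Prop :=
  ∃ l : List (H × B), l.map Prod.fst = L ∧ ∃ z : Zc H,
    (P : H) = YB B l * z.val ∧ z + z = W + RA B hc l

lemma Q_step {L : List H} {P : B} {W : Zc H} (h : Q hc L P W) {x : H}
    (hx : x ∈ L) (s : B) :
    Q hc L (P * nn B x s) (W - om B hc (cj B x s) s + om B hc P (nn B x s)) := by
  obtain ⟨l, rfl, z, h1, h2⟩ := h
  obtain ⟨l', h3, c, h4, h5⟩ := step hc l x hx s
  refine ⟨l', h3, z - c, ?_, ?_⟩
  · have k1 := cen z (⁅x, (s : H)⁆)
    have n1 : ((nn B x s : B) : H) = ⁅x, (s : H)⁆ := rfl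
    rw [Subgroup.coe_mul, h1, h4, val_sub, n1]
    have k2 := cen z c.val
    calc (YB B l : H) * z.val * ⁅x, (s : H)⁆ = YB B l * (z.val * ⁅x, (s : H)⁆) := by group
      _ = YB B l * (⁅x, (s : H)⁆ * z.val) := by rw [k1]
      _ = YB B l * ⁅x, (s : H)⁆ * (z.val * c.val) * c.val⁻¹ := by group
      _ = YB B l * ⁅x, (s : H)⁆ * (c.val * z.val) * c.val⁻¹ := by rw [k2]
      _ = _ := by group
  · rw [om_congr hc (b := P) (b' := YB B l) _ z h1]
    have e2 : RA B hc l' = RA B hc l - (c + c) - om B hc (YB B l) (nn B x s) +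
        om B hc (cj B x s) s := by rw [← h5]; abel
    rw [e2]
    have : z - c + (z - c) = (z + z) - (c + c) := by abel
    rw [this, h2]
    abel

lemma cj_mul' (g h : H) (b : B) : cj B (g * h) b = cj B g (cj B h b) := by
  apply Subtype.ext
  simp only [cj]
  group

lemma nn_mul (g h : H) (b : B) : nn B (g * h) b = nn B g (cj B h b) * nn B h b := by
  apply Subtype.ext
  simp only [nn, cj, Subgroup.coe_mul, commutatorElement_def]
  group

lemma Q_gen {L : List H} {x : H} (hx : x ∈ Submonoid.closure {y : H | y ∈ L}) :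
    ∀ (s : B) {P : B} {W : Zc H}, Q hc L P W →
      Q hc L (P * nn B x s) (W - om B hc (cj B x s) s + om B hc P (nn B x s)) := by
  induction hx using Submonoid.closure_induction with
  | mem x hx => exact fun s P W h => Q_step hc h hx s
  | one =>
    intro s P W h
    have e1 : nn B (1 : H) s = 1 := by apply Subtype.ext; simp [nn]
    have e2 : cj B (1 : H) s = s := by apply Subtype.ext; simp [cj]
    rw [e1, e2, om_self, mul_one, om_swap, om_one_left]
    simpa using h
  | mul g h _ _ ihg ihh =>
    intro s P W hP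
    have h1 := ihh s (ihg (cj B h s) hP)
    rw [nn_mul, cj_mul', ← mul_assoc]
    convert h1 using 1
    rw [om_mul_right, om_mul_left, om_nn' hc h s (nn B g _), om_nn hc g _ (cj B h s),
      om_nn hc g _ s, om_self]
    abel

lemma Q_one (L : List H) : Q hc L (1 : B) 0 := by
  induction L with
  | nil => exact ⟨[], rfl, 0, by simp [YB], by simp [RA]⟩
  | cons x L ih =>
    refine ⟨L.map (fun x => (x, 1)) |>.cons (x, 1), by simp [List.map_map, Function.comp_def],
      0, ?_, ?_⟩
    · have : ∀ M : List H, YB B (M.map fun x => (x, (1 : B))) = 1 := by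
        intro M
        induction M with
        | nil => rfl
        | cons a M ihM =>
          simp only [List.map_cons, YB, ihM, mul_one]
          apply Subtype.ext; simp [nn]
      have h2 := this (x :: L)
      rw [List.map_cons] at h2
      simp [h2]
    · have : ∀ M : List H, RA B hc (M.map fun x => (x, (1 : B))) = 0 := by
        intro M
        induction M with
        | nil => rfl
        | cons a M ihM =>
          have e1 : nn B a 1 = 1 := by apply Subtype.ext; simp [nn]
          have e2 : cj B a 1 = 1 := by apply Subtype.ext; simp [cj]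
          simp only [List.map_cons, RA, ihM, e1, e2, om_one_left]
          simp
      have h2 := this (x :: L)
      rw [List.map_cons] at h2
      rw [h2]

/-- every element of `[B, B]` is represented with `W = 0` -/
lemma Q_comm {L : List H} (hL : Submonoid.closure {y : H | y ∈ L} = ⊤) {a : H}
    (ha : a ∈ ⁅B, B⁆) : ∃ P : B, (P : H) = a ∧ Q hc L P 0 := by
  have key : ∀ (r s : B) (P : B), Q hc L P 0 → Q hc L (P * nn B (r : H) s) 0 := by
    intro r s P hP
    have h := Q_gen hc (L := L) (x := (r : H)) (by rw [hL]; trivial) s hP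
    have hcen : ((nn B (r : H) s : B) : H) = (om B hc r s).val := rfl
    have e1 : om B hc P (nn B (r : H) s) = 0 := by
      apply om_ext
      rw [om_coe, hcen]
      have := cen (om B hc r s) (P : H)
      rw [commutatorElement_def, this]
      simp
    have e2 : om B hc (cj B (r : H) s) s = 0 := by
      have e3 : ((cj B (r : H) s : B) : H) = s * (om B hc r s).val := by
        rw [cen]
        change (r : H) * s * (r : H)⁻¹ = ⁅(r : H), (s : H)⁆ * s
        rw [commutatorElement_def]; group
      rw [om_congr hc s _ e3, om_self]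
    rwa [e1, e2, sub_zero, add_zero] at h
  have h2 : ∀ y ∈ Submonoid.closure
      ({g : H | ∃ g₁ ∈ B, ∃ g₂ ∈ B, ⁅g₁, g₂⁆ = g} ∪ {g : H | ∃ g₁ ∈ B, ∃ g₂ ∈ B, ⁅g₁, g₂⁆ = g}⁻¹),
      ∀ P : B, Q hc L P 0 → ∃ P' : B, (P' : H) = P * y ∧ Q hc L P' 0 := by
    intro y hy
    induction hy using Submonoid.closure_induction with
    | mem x hx =>
      intro P hP
      rcases hx with ⟨r, hr, s, hs, rfl⟩ | hx
      · exact ⟨P * nn B r ⟨s, hs⟩, rfl, key ⟨r, hr⟩ ⟨s, hs⟩ P hP⟩
      · obtain ⟨r, hr, s, hs, h⟩ := hx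
        refine ⟨P * nn B s ⟨r, hr⟩, ?_, key ⟨s, hs⟩ ⟨r, hr⟩ P hP⟩
        have : x = ⁅s, r⁆ := by rw [← commutatorElement_inv, h, inv_inv]
        rw [this]; rfl
    | one => exact fun P hP => ⟨P, by simp, hP⟩
    | mul x y _ _ ihx ihy =>
      intro P hP
      obtain ⟨P1, h1, h2⟩ := ihx P hP
      obtain ⟨P2, h3, h4⟩ := ihy P1 h2
      exact ⟨P2, by rw [h3, h1, mul_assoc], h4⟩
  have ha' : a ∈ Submonoid.closure
      ({g : H | ∃ g₁ ∈ B, ∃ g₂ ∈ B, ⁅g₁, g₂⁆ = g} ∪
        {g : H | ∃ g₁ ∈ B, ∃ g₂ ∈ B, ⁅g₁, g₂⁆ = g}⁻¹) := by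
    rw [← Subgroup.closure_toSubmonoid, Subgroup.mem_toSubmonoid, ← Subgroup.commutator_def]
    exact ha
  obtain ⟨P, h3, h4⟩ := h2 a ha' 1 (Q_one hc L)
  exact ⟨P, by simpa using h3, h4⟩

lemma yy_YB (l : List (H × B)) :
    yy (l.map fun p => (p.1, (p.2 : H))) = ((YB B l : B) : H) := by
  induction l with
  | nil => rfl
  | cons p l ih =>
    simp only [yy, List.map_cons, List.prod_cons, YB, Subgroup.coe_mul] at ih ⊢
    rw [ih]
    rfl

lemma rr_RA (l : List (H × B)) :
    rr (l.map fun p => (p.1, (p.2 : H))) = (RA B hc l).val := by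
  induction l with
  | nil => rfl
  | cons p l ih =>
    simp only [rr, List.map_cons, RA, val_add, val_sub, om_coe, ih, yy_YB]
    congr 1
    congr 1
    change _ = ⁅p.1 * (p.2 : H) * p.1⁻¹, (p.2 : H)⁆
    simp only [commutatorElement_def]
    group

include hc in
/-- the square formula -/
theorem square {L : List H} (hL : Submonoid.closure {y : H | y ∈ L} = ⊤) {a : H}
    (ha : a ∈ ⁅B, B⁆) : ∃ l : List (H × H), l.map Prod.fst = L ∧ (∀ p ∈ l, p.2 ∈ B) ∧
      a ^ 2 = rr l * yy l ^ 2 := by
  obtain ⟨P, rfl, l, rfl, z, h1, h2⟩ := Q_comm hc hL ha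
  refine ⟨l.map fun p => (p.1, (p.2 : H)), by simp [List.map_map, Function.comp_def], ?_, ?_⟩
  · intro p hp
    rw [List.mem_map] at hp
    obtain ⟨q, _, rfl⟩ := hp
    exact q.2.2
  · rw [yy_YB, rr_RA hc, h1]
    have h3 : (RA B hc l).val = z.val * z.val := by
      rw [← val_add, h2, zero_add]
    have h4 := cen z (YB B l : H)
    rw [h3, pow_two, pow_two]
    calc (YB B l : H) * z.val * (YB B l * z.val)
        = (YB B l : H) * z.val * (z.val * YB B l) := by rw [h4]
      _ = ((YB B l : H) * z.val) * z.val * YB B l := by group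
      _ = (z.val * YB B l) * z.val * YB B l := by rw [h4]
      _ = z.val * (YB B l * z.val) * YB B l := by group
      _ = z.val * (z.val * YB B l) * YB B l := by rw [h4]
      _ = _ := by group

end

end Pool.Agent.T9h90.PW
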