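import Pool.Agent.T9h90.PW.Gen

/-! # The extension theorem: from `G / [B, B]` to `G / γ_j(B)` and `G / [γ_j(B), γ_j(B)]` -/

set_option autoImplicit false

universe u

namespace Pool.Agent.T9h90.PW

open scoped commutatorElement
open Pool.Agent.Results.MP_738270_al.SomeGenSet

variable {G : Type u} [Group G]

/-- the lower central series of a subgroup: `low B j = γ_(j+1)(B)` -/
def low (B : Subgroup G) : ℕ → Subgroup G
  | 0 => B
  | j + 1 => ⁅low B j, B⁆

/-- `B` is generated by the conjugates of finitely many elements and by a subgroup `A`, normal in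
`G`, such that `[A, A]` is covered by finitely many sets
`t · {b ^ 2 : b ∈ [B, B]} · [[B, B], G]` -/
def Thin (B : Subgroup G) : Prop :=
  ∃ A : Subgroup G, A.Normal ∧ A ≤ B ∧
    (∃ T : Finset G, (∀ t ∈ T, t ∈ B) ∧ B ≤ Subgroup.normalClosure (T : Set G) ⊔ A) ∧
    (∃ T : Finset G, ∀ a ∈ ⁅A, A⁆, ∃ t ∈ T, ∃ b ∈ ⁅B, B⁆,
      ∃ c ∈ ⁅⁅B, B⁆, (⊤ : Subgroup G)⁆, a = t * (b ^ 2 * c))

instance low_normal (B : Subgroup G) [B.Normal] (j : ℕ) : (low B j).Normal := by
  induction j with
  | zero => simpa [low]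
  | succ j ih => simp only [low]; infer_instance

/-- a version of the three subgroups lemma -/
lemma three {A B N : Subgroup G} [A.Normal] [B.Normal] [N.Normal]
    (h1 : ⁅⁅A, B⁆, B⁆ ≤ N) : ⁅A, ⁅B, B⁆⁆ ≤ N := by
  let π := QuotientGroup.mk' N
  have hker : ∀ K : Subgroup G, K ≤ N → K.map π = ⊥ := by
    intro K hK
    rw [Subgroup.map_eq_bot_iff, QuotientGroup.ker_mk']
    exact hK
  have h2 : ⁅⁅A.map π, B.map π⁆, B.map π⁆ = ⊥ := by
    rw [← Subgroup.map_commutator, ← Subgroup.map_commutator]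
    exact hker _ h1
  have h3 : ⁅⁅B.map π, A.map π⁆, B.map π⁆ = ⊥ := by
    rw [Subgroup.commutator_comm (B.map π) (A.map π)]
    exact h2
  have h4 : ⁅⁅B.map π, B.map π⁆, A.map π⁆ = ⊥ :=
    Subgroup.commutator_commutator_eq_bot_of_rotate h3 h2
  have h5 : (⁅A, ⁅B, B⁆⁆).map π = ⊥ := by
    rw [Subgroup.map_commutator, Subgroup.map_commutator, Subgroup.commutator_comm]
    exact h4
  rw [Subgroup.map_eq_bot_iff, QuotientGroup.ker_mk'] at h5
  exact h5

lemma low_le (B : Subgroup G) [B.Normal] (j : ℕ) : low B (j + 1) ≤ ⁅B, B⁆ := by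
  induction j with
  | zero => exact le_rfl
  | succ j ih =>
    refine le_trans ?_ ih
    exact Subgroup.commutator_le_left _ _

lemma low_comm (B : Subgroup G) [B.Normal] (j : ℕ) :
    ⁅low B (j + 1), low B (j + 1)⁆ ≤ low B (j + 3) :=
  (Subgroup.commutator_mono le_rfl (low_le B j)).trans (three le_rfl)

/-- the layers below `[B, B]` -/
lemma low_layer {X : Finset G} (hX : Subgroup.closure (X : Set G) = ⊤) {B : Subgroup G}
    [B.Normal] (j : ℕ) {a : G} (ha : a ∈ low B (j + 2)) :
    ∃ p ∈ Bd (X : Set G) (6 * X.card), p⁻¹ * a ∈ low B (j + 3) := by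
  have h1 : low B (j + 2) ≤ ⁅low B (j + 1), (⊤ : Subgroup G)⁆ :=
    Subgroup.commutator_mono le_rfl le_top
  obtain ⟨q, hq, hq'⟩ := layer_comm' hX (low B (j + 1)) (h1 ha)
  exact ⟨q, hq, low_comm B j hq'⟩

/-- one step below `[B, B]` -/
lemma cov_low_step {X : Finset G} (hX : Subgroup.closure (X : Set G) = ⊤) {B : Subgroup G}
    [B.Normal] {K j : ℕ} (h : Cov (X : Set G) (low B (j + 2)) K) :
    Cov (X : Set G) (low B (j + 3)) (K + 6 * X.card) := by
  intro g
  obtain ⟨p, hp, hp'⟩ := h g
  obtain ⟨q, hq, hq'⟩ := low_layer hX j hp'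
  refine ⟨p * q, bd_mul hp hq, ?_⟩
  convert hq' using 1
  group

lemma exists_bd_finset {X : Finset G} (hX : Subgroup.closure (X : Set G) = ⊤) (T : Finset G) :
    ∃ k, ∀ t ∈ T, t ∈ Bd (X : Set G) k := by
  choose f hf using fun t : G => exists_bd hX t
  exact ⟨T.sup f, fun t ht => bd_mono (Finset.le_sup ht) (hf t)⟩

/-- elements of a thin layer are bounded -/
lemma thin_layer {X : Finset G} (hX : Subgroup.closure (X : Set G) = ⊤) {B : Subgroup G}
    [B.Normal] (hB : Thin B) : ∃ k, ∀ a ∈ ⁅B, B⁆, ∃ p ∈ Bd (X : Set G) k,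
      p⁻¹ * a ∈ ⁅⁅B, B⁆, (⊤ : Subgroup G)⁆ := by
  obtain ⟨A, hA, hAB, ⟨T, hT1, hT2⟩, S, hS⟩ := hB
  obtain ⟨k, hk⟩ := exists_bd_finset hX T
  obtain ⟨k', hk'⟩ := exists_bd_finset hX S
  refine ⟨3 * k * T.toList.length + k' + 48 * X.card, fun a ha => ?_⟩
  have hT3 : {t : G | t ∈ T.toList} = (T : Set G) := by ext; simp
  obtain ⟨p, hp, z, hz, hpz⟩ := layer_gen hX (T := T.toList)
    (fun t ht => hk t (Finset.mem_toList.1 ht)) B A hAB
    (fun t ht => hT1 t (Finset.mem_toList.1 ht)) (by rw [hT3]; exact hT2) ha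
  obtain ⟨t, ht, b, hb, c, hc, rfl⟩ := hS z hz
  obtain ⟨q, hq, hq'⟩ := layer_sq' hX B hb
  refine ⟨p * t * q, bd_mul (bd_mul hp (hk' t ht)) hq, ?_⟩
  have := Subgroup.mul_mem _ (Subgroup.mul_mem _ hq' hc) hpz
  convert this using 1
  group

/-- the extension theorem, lower central series -/
lemma cov_low {X : Finset G} (hX : Subgroup.closure (X : Set G) = ⊤) {B : Subgroup G}
    [B.Normal] {K k : ℕ} (h : Cov (X : Set G) ⁅B, B⁆ K)
    (hk : ∀ a ∈ ⁅B, B⁆, ∃ p ∈ Bd (X : Set G) k, p⁻¹ * a ∈ ⁅⁅B, B⁆, (⊤ : Subgroup G)⁆) (j : ℕ) :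
    Cov (X : Set G) (low B j) (K + k + 6 * X.card * j) := by
  have h2 : Cov (X : Set G) (low B 2) (K + k + 6 * X.card) :=
    cov_le (Subgroup.commutator_mono le_rfl (Subgroup.commutator_le_left B B))
      (cov_step hX h hk)
  match j with
  | 0 =>
    exact cov_mono (by omega) (cov_le (Subgroup.commutator_le_left B B) h)
  | 1 => exact cov_mono (by omega) h
  | j + 2 =>
    induction j with
    | zero =>
      refine cov_mono ?_ h2
      nlinarith [Nat.zero_le X.card]
    | succ j ih =>
      refine cov_mono ?_ (cov_low_step hX ih)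
      apply le_of_eq
      ring

/-- the extension theorem, from `[B, B]` to `[γ_j(B), γ_j(B)]` -/
lemma cov_low_comm {X : Finset G} (hX : Subgroup.closure (X : Set G) = ⊤) {B : Subgroup G}
    [B.Normal] {K : ℕ} (h : Cov (X : Set G) ⁅B, B⁆ K) (hB : Thin B) (j : ℕ) :
    ∃ K', Cov (X : Set G) ⁅low B (j + 1), low B (j + 1)⁆ K' := by
  obtain ⟨k, hk⟩ := thin_layer hX hB
  cases j with
  | zero => exact ⟨_, cov_step hX h hk⟩
  | succ j =>
    refine ⟨_, cov_step hX (cov_low hX h hk (j + 2)) (k := 6 * X.card) fun a ha => ?_⟩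
    obtain ⟨p, hp, hp'⟩ := low_layer hX j ha
    exact ⟨p, hp, Subgroup.commutator_mono le_rfl le_top hp'⟩

/-! ### the lower central series of `G` is thin -/

/-- left-normed commutators of weight `j + 1` in `X` -/
def wt (X : Set G) : ℕ → Set G
  | 0 => X
  | j + 1 => Set.image2 (fun w x => ⁅w, x⁆) (wt X j) X

lemma wt_finite {X : Set G} (hX : X.Finite) (j : ℕ) : (wt X j).Finite := by
  induction j with
  | zero => exact hX
  | succ j ih => exact ih.image2 _ hX

lemma wt_map {K : Type u} [Group K] (π : G →* K) (X : Set G) (j : ℕ) :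
    wt (π '' X) j = π '' wt X j := by
  induction j with
  | zero => rfl
  | succ j ih =>
    simp only [wt, ih]
    rw [Set.image_image2, Set.image2_image_left, Set.image2_image_right]
    simp only [map_commutatorElement]

lemma low_map {K : Type u} [Group K] (π : G →* K) (B : Subgroup G) (j : ℕ) :
    (low B j).map π = low (B.map π) j := by
  induction j with
  | zero => rfl
  | succ j ih => simp only [low]; rw [Subgroup.map_commutator, ih]

lemma wt_low {X : Set G} (hX : Subgroup.closure X = ⊤) (j : ℕ) (h : ∀ g ∈ wt X j, g = 1) :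
    low (⊤ : Subgroup G) j = ⊥ := by
  induction j generalizing G with
  | zero =>
    rw [low, ← hX, Subgroup.closure_eq_bot_iff]
    exact h
  | succ j ih =>
    have h1 : ∀ w ∈ wt X j, w ∈ Subgroup.center G := by
      intro w hw
      have h2 : Subgroup.closure X ≤ Subgroup.centralizer {w} := by
        rw [Subgroup.closure_le]
        intro x hx
        rw [SetLike.mem_coe, Subgroup.mem_centralizer_singleton_iff]
        have h3 := h ⁅w, x⁆ ⟨w, hw, x, hx, rfl⟩
        rw [commutatorElement_eq_one_iff_mul_comm] at h3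
        exact h3.symm
      rw [Subgroup.mem_center_iff]
      intro g
      have h4 : g ∈ Subgroup.centralizer {w} := h2 (by rw [hX]; trivial)
      rw [Subgroup.mem_centralizer_singleton_iff] at h4
      exact h4
    let π := QuotientGroup.mk' (Subgroup.center G)
    have hπ : Function.Surjective π := QuotientGroup.mk'_surjective _
    have h5 : Subgroup.closure (π '' X) = ⊤ := by
      rw [← MonoidHom.map_closure, hX, ← MonoidHom.range_eq_map]
      exact MonoidHom.range_eq_top.2 hπ
    have h6 := ih h5 (by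
      intro g hg
      rw [wt_map] at hg
      obtain ⟨w, hw, rfl⟩ := hg
      exact (QuotientGroup.eq_one_iff w).2 (h1 w hw))
    have h7 : (low (⊤ : Subgroup G) j).map π = ⊥ := by
      rw [low_map, ← MonoidHom.range_eq_map, MonoidHom.range_eq_top.2 hπ]
      exact h6
    rw [Subgroup.map_eq_bot_iff, QuotientGroup.ker_mk'] at h7
    simp only [low]
    rw [Subgroup.commutator_eq_bot_iff_le_centralizer]
    refine h7.trans ?_
    intro g hg
    rw [Subgroup.mem_centralizer_iff]
    intro k _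
    exact Subgroup.mem_center_iff.1 hg k

lemma low_top_le {X : Set G} (hX : Subgroup.closure X = ⊤) (j : ℕ) :
    low (⊤ : Subgroup G) j ≤ Subgroup.normalClosure (wt X j) := by
  let N := Subgroup.normalClosure (wt X j)
  let π := QuotientGroup.mk' N
  have hπ : Function.Surjective π := QuotientGroup.mk'_surjective _
  have h5 : Subgroup.closure (π '' X) = ⊤ := by
    rw [← MonoidHom.map_closure, hX, ← MonoidHom.range_eq_map]
    exact MonoidHom.range_eq_top.2 hπ
  have h6 := wt_low h5 j (by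
    intro g hg
    rw [wt_map] at hg
    obtain ⟨w, hw, rfl⟩ := hg
    exact (QuotientGroup.eq_one_iff w).2 (Subgroup.subset_normalClosure hw))
  have h7 : (low (⊤ : Subgroup G) j).map π = ⊥ := by
    rw [low_map, ← MonoidHom.range_eq_map, MonoidHom.range_eq_top.2 hπ]
    exact h6
  rw [Subgroup.map_eq_bot_iff, QuotientGroup.ker_mk'] at h7
  exact h7

lemma wt_mem {X : Set G} (j : ℕ) : wt X j ⊆ low (⊤ : Subgroup G) j := by
  induction j with
  | zero => exact fun _ _ => trivial
  | succ j ih =>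
    rintro _ ⟨w, hw, x, _, rfl⟩
    exact Subgroup.commutator_mem_commutator (ih hw) (Subgroup.mem_top _)

/-- normally finitely generated subgroups are thin -/
lemma thin_of_fg (B : Subgroup G) {T : Finset G} (hT : ∀ t ∈ T, t ∈ B)
    (h : B ≤ Subgroup.normalClosure (T : Set G)) : Thin B := by
  refine ⟨⊥, inferInstance, bot_le, ⟨T, hT, le_sup_of_le_left h⟩, {1}, fun a ha => ?_⟩
  rw [Subgroup.commutator_bot_left, Subgroup.mem_bot] at ha
  exact ⟨1, by simp, 1, Subgroup.one_mem _, 1, Subgroup.one_mem _, by simp [ha]⟩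

lemma thin_low_top {X : Finset G} (hX : Subgroup.closure (X : Set G) = ⊤) (j : ℕ) :
    Thin (low (⊤ : Subgroup G) j) := by
  have hf := wt_finite X.finite_toSet j
  refine thin_of_fg _ (T := hf.toFinset) (fun t ht => wt_mem j (by simpa using ht)) ?_
  rw [Set.Finite.coe_toFinset]
  exact low_top_le hX j

/-! ### series -/

/-- the series `B_0 = G`, `B_(i+1) = γ_(c_i + 1)(B_i)` -/
def ser (c : ℕ → ℕ) : ℕ → Subgroup G
  | 0 => ⊤
  | i + 1 => low (ser c i) (c i)

instance ser_normal (c : ℕ → ℕ) (i : ℕ) : (ser c i : Subgroup G).Normal := by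
  induction i with
  | zero => simp only [ser]; infer_instance
  | succ i ih => simp only [ser]; infer_instance

theorem main {X : Finset G} (hX : Subgroup.closure (X : Set G) = ⊤) (c : ℕ → ℕ)
    (hc : ∀ i, 1 ≤ c i) (m : ℕ) (hm : ser c m = (⊥ : Subgroup G))
    (h : ∀ i, 2 ≤ i → i < m → Thin (ser c i : Subgroup G)) : palWidth (X : Set G) < ⊤ := by
  have thin : ∀ i, i < m → Thin (ser c i : Subgroup G) := by
    intro i hi
    match i with
    | 0 => exact thin_low_top hX 0
    | 1 => exact thin_low_top hX (c 0)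
    | i + 2 => exact h (i + 2) (by omega) hi
  have key : ∀ i, i ≤ m → ∃ K, Cov (X : Set G) ⁅(ser c i : Subgroup G), ser c i⁆ K := by
    intro i
    induction i with
    | zero =>
      intro _
      refine ⟨X.card, ?_⟩
      have := cov_one hX
      rw [derivedSeries_one, commutator_def] at this
      exact this
    | succ i ih =>
      intro hi
      obtain ⟨K, hK⟩ := ih (by omega)
      obtain ⟨j, hj⟩ : ∃ j, c i = j + 1 := ⟨c i - 1, by have := hc i; omega⟩
      simp only [ser]
      rw [hj]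
      exact cov_low_comm hX hK (thin i (by omega)) j
  obtain ⟨K, hK⟩ := key m le_rfl
  rw [hm, Subgroup.commutator_bot_left] at hK
  refine lt_of_le_of_lt (palWidth_le (k := K) fun g => ?_) (ENat.natCast_lt_top _)
  obtain ⟨p, hp, hp'⟩ := hK g
  rw [Subgroup.mem_bot, inv_mul_eq_one] at hp'
  rwa [← hp']

end Pool.Agent.T9h90.PW
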