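import Pool.Agent.T9h90.PW.Lift

/-! # Climbing the derived series -/

set_option autoImplicit false

universe u

namespace Pool.Agent.T9h90.PW

open scoped commutatorElement
open Pool.Agent.Results.MP_738270_al.SomeGenSet

variable {G : Type u} [Group G]

/-- every element is a product of at most `K` palindromes modulo `A` -/
def Cov (X : Set G) (A : Subgroup G) (K : ℕ) : Prop :=
  ∀ g : G, ∃ p ∈ Bd X K, p⁻¹ * g ∈ A

/-- the list of letters -/
noncomputable def letters (X : Finset G) : List G := X.toList ++ X.toList.map fun x => x⁻¹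

lemma letters_length (X : Finset G) : (letters X).length = 2 * X.card := by
  simp [letters]; omega

lemma letters_closure {X : Finset G} (hX : Subgroup.closure (X : Set G) = ⊤) :
    Submonoid.closure {y : G | y ∈ letters X} = ⊤ := by
  have h1 : {y : G | y ∈ letters X} = (X : Set G) ∪ (X : Set G)⁻¹ := by
    ext y
    simp only [letters, List.mem_append, List.mem_map, Finset.mem_toList, Set.mem_ofPred_eq,
      Set.mem_union, Finset.mem_coe, Set.mem_inv]
    constructor
    · rintro (h | ⟨a, h, rfl⟩)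
      · exact Or.inl h
      · exact Or.inr (by simpa using h)
    · rintro (h | h)
      · exact Or.inl h
      · exact Or.inr ⟨y⁻¹, h, by simp⟩
  rw [h1, ← Subgroup.closure_toSubmonoid, hX]
  rfl

lemma letters_bd {X : Finset G} {x : G} (hx : x ∈ letters X) : x ∈ Bd (X : Set G) 1 := by
  rw [letters, List.mem_append, List.mem_map] at hx
  rcases hx with h | ⟨a, h, rfl⟩
  · exact bd_gen (Finset.mem_toList.1 h)
  · exact bd_inv (bd_gen (Finset.mem_toList.1 h))

lemma layer_comm' {X : Finset G} (hX : Subgroup.closure (X : Set G) = ⊤)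
    (A : Subgroup G) [A.Normal] {g : G} (hg : g ∈ ⁅A, (⊤ : Subgroup G)⁆) :
    ∃ p ∈ Bd (X : Set G) (6 * X.card), p⁻¹ * g ∈ ⁅A, A⁆ := by
  have h := layer_comm hX (letters_closure hX) (fun x hx => letters_bd hx) A hg
  rw [letters_length] at h
  convert h using 5
  ring

lemma layer_sq' {X : Finset G} (hX : Subgroup.closure (X : Set G) = ⊤)
    (B : Subgroup G) [B.Normal] {a : G} (ha : a ∈ ⁅B, B⁆) :
    ∃ p ∈ Bd (X : Set G) (48 * X.card), p⁻¹ * a ^ 2 ∈ ⁅⁅B, B⁆, (⊤ : Subgroup G)⁆ := by
  have h := layer_sq hX (letters_closure hX) (fun x hx => letters_bd hx) B ha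
  rw [letters_length] at h
  convert h using 5
  ring

lemma cov_step {X : Finset G} (hX : Subgroup.closure (X : Set G) = ⊤) {A : Subgroup G}
    [A.Normal] {K k : ℕ} (h : Cov (X : Set G) A K)
    (hk : ∀ a ∈ A, ∃ p ∈ Bd (X : Set G) k, p⁻¹ * a ∈ ⁅A, (⊤ : Subgroup G)⁆) :
    Cov (X : Set G) ⁅A, A⁆ (K + k + 6 * X.card) := by
  intro g
  obtain ⟨p, hp, hp'⟩ := h g
  obtain ⟨q, hq, hq'⟩ := hk _ hp'
  obtain ⟨r, hr, hr'⟩ := layer_comm' hX A hq'
  refine ⟨p * q * r, bd_mul (bd_mul hp hq) hr, ?_⟩
  convert hr' using 1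
  group

lemma cov_one {X : Finset G} (hX : Subgroup.closure (X : Set G) = ⊤) :
    Cov (X : Set G) (derivedSeries G 1) X.card := by
  intro g
  obtain ⟨f, hf⟩ := exists_powers X hX g
  refine ⟨_, ⟨X.toList.map fun a => a ^ f a, by simp, ?_, rfl⟩, ?_⟩
  · intro p hp
    rw [List.mem_map] at hp
    obtain ⟨a, ha, rfl⟩ := hp
    exact isPalindrome_zpow _ (Finset.mem_toList.1 ha) _
  · rw [derivedSeries_one]
    exact hf

lemma layer_one {X : Finset G} (hX : Subgroup.closure (X : Set G) = ⊤) {a : G}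
    (ha : a ∈ derivedSeries G 1) :
    ∃ p ∈ Bd (X : Set G) (3 * X.card), p⁻¹ * a ∈ ⁅derivedSeries G 1, (⊤ : Subgroup G)⁆ := by
  rw [derivedSeries_one] at ha ⊢
  have h := layer_fg hX (k := 1) (T := X.toList)
    (fun x hx => bd_gen (Finset.mem_toList.1 hx)) (⊤ : Subgroup G) (fun _ _ => Subgroup.mem_top _)
    (by
      rw [← hX]
      refine le_sup_of_le_left ((Subgroup.closure_le _).2 ?_)
      intro x hx
      exact Subgroup.subset_normalClosure (Finset.mem_toList.2 hx)) (a := a) ha
  rw [Finset.length_toList, ← commutator_def] at h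
  simpa using h

/-- commutators of generators -/
noncomputable def commList (X : Finset G) : List G :=
  (X.toList ×ˢ X.toList).map fun p => ⁅p.1, p.2⁆

lemma commutator_le_normalClosure {X : Finset G} (hX : Subgroup.closure (X : Set G) = ⊤) :
    commutator G ≤ Subgroup.normalClosure {t : G | t ∈ commList X} := by
  set N := Subgroup.normalClosure {t : G | t ∈ commList X} with hN
  have key : ∀ a ∈ X, ∀ b ∈ X, (QuotientGroup.mk a : G ⧸ N) * QuotientGroup.mk b =
      QuotientGroup.mk b * QuotientGroup.mk a := by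
    intro a ha b hb
    rw [← QuotientGroup.mk_mul, ← QuotientGroup.mk_mul, QuotientGroup.eq]
    have h1 : ⁅b, a⁆ ∈ N := by
      apply Subgroup.subset_normalClosure
      change _ ∈ commList X
      rw [commList, List.mem_map]
      exact ⟨(b, a), by simp [ha, hb], rfl⟩
    have h2 := (inferInstance : N.Normal).conj_mem _ h1 (b⁻¹ * a⁻¹ )
    convert (inferInstance : N.Normal).conj_mem _ h1 ((a * b)⁻¹) using 1
    rw [commutatorElement_def]
    group
  have hS : Subgroup.closure ((QuotientGroup.mk' N) '' X) = ⊤ := by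
    rw [← MonoidHom.map_closure, hX, ← MonoidHom.range_eq_map, MonoidHom.range_eq_top]
    exact QuotientGroup.mk'_surjective N
  have h1 : ((QuotientGroup.mk' N) '' X) ⊆ Subgroup.centralizer ((QuotientGroup.mk' N) '' X) := by
    rintro _ ⟨a, ha, rfl⟩
    rw [SetLike.mem_coe, Subgroup.mem_centralizer_iff]
    rintro _ ⟨b, hb, rfl⟩
    exact key b hb a ha
  have h2 : (⊤ : Subgroup (G ⧸ N)) ≤ Subgroup.centralizer ((QuotientGroup.mk' N) '' X) := by
    rw [← hS]; exact (Subgroup.closure_le _).2 h1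
  have h3 : ((QuotientGroup.mk' N) '' X) ⊆ Subgroup.center (G ⧸ N) := by
    intro a ha
    rw [SetLike.mem_coe, Subgroup.mem_center_iff]
    intro g
    exact ((Subgroup.mem_centralizer_iff.1 (h2 (Subgroup.mem_top g))) a ha).symm
  have h4 : (⊤ : Subgroup (G ⧸ N)) ≤ Subgroup.center (G ⧸ N) := by
    rw [← hS]; exact (Subgroup.closure_le _).2 h3
  rw [commutator_def, Subgroup.commutator_le]
  intro x _ y _
  have h5 := Subgroup.mem_center_iff.1 (h4 (Subgroup.mem_top (QuotientGroup.mk x : G ⧸ N)))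
    (QuotientGroup.mk y)
  rw [← QuotientGroup.eq_one_iff]
  rw [commutatorElement_def, QuotientGroup.mk_mul, QuotientGroup.mk_mul, QuotientGroup.mk_mul,
    QuotientGroup.mk_inv, QuotientGroup.mk_inv, ← h5]
  group

lemma layer_two {X : Finset G} (hX : Subgroup.closure (X : Set G) = ⊤) {a : G}
    (ha : a ∈ derivedSeries G 2) :
    ∃ p ∈ Bd (X : Set G) (9 * (X.card * X.card)),
      p⁻¹ * a ∈ ⁅derivedSeries G 2, (⊤ : Subgroup G)⁆ := by
  have e : derivedSeries G 2 = ⁅derivedSeries G 1, derivedSeries G 1⁆ := derivedSeries_succ G 1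
  rw [e] at ha ⊢
  have h := layer_fg hX (k := 3) (T := commList X) (fun x hx => by
      rw [commList, List.mem_map] at hx
      obtain ⟨⟨y, z⟩, h1, rfl⟩ := hx
      rw [List.mem_product] at h1
      exact bd_comm hX (bd_gen (Finset.mem_toList.1 h1.2)) y) (derivedSeries G 1)
    (fun x hx => by
      rw [commList, List.mem_map] at hx
      obtain ⟨⟨y, z⟩, h1, rfl⟩ := hx
      rw [derivedSeries_one]
      exact Subgroup.commutator_mem_commutator (Subgroup.mem_top _) (Subgroup.mem_top _))
    (by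
      refine le_sup_of_le_left ?_
      rw [derivedSeries_one]
      exact commutator_le_normalClosure hX) (a := a) ha
  have e2 : (commList X).length = X.card * X.card := by
    simp [commList, List.length_product]
  rw [e2] at h
  convert h using 5
  

lemma cov_three {X : Finset G} (hX : Subgroup.closure (X : Set G) = ⊤) :
    Cov (X : Set G) (derivedSeries G 3) (16 * X.card + 9 * (X.card * X.card)) := by
  have h2 : Cov (X : Set G) (derivedSeries G 2) (X.card + 3 * X.card + 6 * X.card) :=
    cov_step hX (cov_one hX) fun a ha => layer_one hX ha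
  have h3 : Cov (X : Set G) (derivedSeries G 3)
      (X.card + 3 * X.card + 6 * X.card + 9 * (X.card * X.card) + 6 * X.card) :=
    cov_step hX h2 fun a ha => layer_two hX ha
  convert h3 using 1
  ring

lemma cov_mono {X : Set G} {A : Subgroup G} {K K' : ℕ} (h : K ≤ K') (hc : Cov X A K) :
    Cov X A K' := fun g => by
  obtain ⟨p, hp, hp'⟩ := hc g
  exact ⟨p, bd_mono h hp, hp'⟩

lemma cov_le {X : Set G} {A A' : Subgroup G} {K : ℕ} (h : A ≤ A') (hc : Cov X A K) :
    Cov X A' K := fun g => by
  obtain ⟨p, hp, hp'⟩ := hc g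
  exact ⟨p, hp, h hp'⟩

/-- a function which bounds everything -/
def bnd (d : ℕ) (k : ℕ → ℕ) : ℕ → ℕ
  | 0 => 16 * d + 9 * (d * d)
  | n + 1 => bnd d k n + k (bnd d k n) + 6 * d

/-- climbing the derived series -/
lemma cov_climb {X : Finset G} {d : ℕ} (hd : X.card ≤ d)
    (hX : Subgroup.closure (X : Set G) = ⊤) (k : ℕ → ℕ) (s : ℕ)
    (hk : ∀ n, n + 3 < s → ∀ K, Cov (X : Set G) (derivedSeries G (n + 3)) K →
      ∀ a ∈ derivedSeries G (n + 3), ∃ p ∈ Bd (X : Set G) (k K),
        p⁻¹ * a ∈ ⁅derivedSeries G (n + 3), (⊤ : Subgroup G)⁆) :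
    ∀ n, n + 3 ≤ s → Cov (X : Set G) (derivedSeries G (n + 3)) (bnd d k n) := by
  intro n
  induction n with
  | zero =>
    intro _
    refine cov_mono ?_ (cov_three hX)
    simp only [bnd]
    gcongr
  | succ n ih =>
    intro hn
    have h1 := ih (by omega)
    have h2 : Cov (X : Set G) (derivedSeries G (n + 1 + 3)) _ :=
      cov_step hX h1 (hk n (by omega) _ h1)
    refine cov_mono ?_ h2
    simp only [bnd]
    gcongr

lemma width_of_cov {X : Finset G} {s K : ℕ} (hs : derivedSeries G s = ⊥)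
    (h : Cov (X : Set G) (derivedSeries G s) K) : palWidth (X : Set G) ≤ K := by
  apply palWidth_le
  intro g
  obtain ⟨p, hp, hp'⟩ := h g
  rw [hs, Subgroup.mem_bot] at hp'
  have : p = g := by rwa [inv_mul_eq_one] at hp'
  rwa [← this]

lemma cov_small {X : Finset G} {s : ℕ} (hX : Subgroup.closure (X : Set G) = ⊤) (hs : s ≤ 3) :
    Cov (X : Set G) (derivedSeries G s) (16 * X.card + 9 * (X.card * X.card)) :=
  cov_le (derivedSeries_antitone G hs) (cov_three hX)

end Pool.Agent.T9h90.PW
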