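import Pool.Agent.T9h90.PW.Final

/-! # Layers generated by finitely many conjugacy classes and a normal subgroup -/

set_option autoImplicit false

universe u

namespace Pool.Agent.T9h90.PW

open scoped commutatorElement
open Pool.Agent.Results.MP_738270_al.SomeGenSet

section

variable {H : Type u} [Group H] (B : Subgroup H) [hB : B.Normal]

variable {B}

/-- `[B, B]` central, `B` generated by the conjugates of `T` and by the normal subgroup `A` -/
lemma Rp_gen (hc : ⁅B, B⁆ ≤ Subgroup.center H) (A : Subgroup H) [A.Normal] (hAB : A ≤ B)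
    {T : List H} (hTB : ∀ t ∈ T, t ∈ B)
    (hT : B ≤ Subgroup.normalClosure {t : H | t ∈ T} ⊔ A) {a : H} (ha : a ∈ ⁅B, B⁆) :
    ∃ P : B, (P : H) = a ∧ ∃ P' : B, Rp T P' ∧ ∃ z ∈ ⁅A, A⁆, (P : H) = P' * z := by
  have hcen : ∀ (r s : B), ((nn B (r : H) s : B) : H) = (om B hc r s).val := fun _ _ => rfl
  have hz : ∀ (r s c : B), nn B (r : H) s * c = c * nn B (r : H) s := by
    intro r s c
    apply Subtype.ext
    rw [Subgroup.coe_mul, Subgroup.coe_mul, hcen, cen]
  have hm : ∀ (r t s : B), nn B (r : H) (t * s) = nn B (r : H) t * nn B (r : H) s := by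
    intro r t s
    apply Subtype.ext
    rw [Subgroup.coe_mul, hcen, hcen, hcen, om_mul_right, val_add]
  have hinv : ∀ (r s : B), nn B ((r⁻¹ : B) : H) s = nn B (r : H) s⁻¹ := by
    intro r s
    apply Subtype.ext
    rw [hcen, hcen, om_inv_left, om_swap hc r s⁻¹, om_inv_left, om_swap hc r s]
  have hconj : ∀ (g : H) (r s : B), nn B ((cj B g r : B) : H) s = nn B (r : H) (cj B g⁻¹ s) := by
    intro g r s
    apply Subtype.ext
    rw [hcen, hcen, ← om_conj hc g r (cj B g⁻¹ s)]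
    congr 2
    apply Subtype.ext
    simp only [cj]; group
  have hswap : ∀ (r s : B), nn B (r : H) s = nn B (s : H) r⁻¹ := by
    intro r s
    apply Subtype.ext
    rw [hcen, hcen, om_swap hc s r⁻¹, om_inv_left, neg_neg]
  let Rep : B → Prop := fun P => ∃ P' : B, Rp T P' ∧ ∃ z ∈ ⁅A, A⁆, (P : H) = P' * z
  have hAAB : ⁅A, A⁆ ≤ ⁅B, B⁆ := Subgroup.commutator_mono hAB hAB
  have hRepT : ∀ (x : B), (x : H) ∈ T → ∀ (s P : B), Rep P → Rep (P * nn B (x : H) s) := by
    rintro x hx s P ⟨P', h1, z, hz1, h2⟩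
    refine ⟨P' * nn B (x : H) s, Rp_step hx (hm x) (hz x) s h1, z, hz1, ?_⟩
    rw [Subgroup.coe_mul, Subgroup.coe_mul, h2]
    have h3 := Subgroup.mem_center_iff.1 (hc (hAAB hz1)) ((nn B (x : H) s : B) : H)
    rw [mul_assoc, mul_assoc, h3]
  have hRepA : ∀ (x s : B), (x : H) ∈ A → (s : H) ∈ A → ∀ P : B, Rep P →
      Rep (P * nn B (x : H) s) := by
    rintro x s hx hs P ⟨P', h1, z, hz1, h2⟩
    refine ⟨P', h1, z * ⁅(x : H), (s : H)⁆,
      Subgroup.mul_mem _ hz1 (Subgroup.commutator_mem_commutator hx hs), ?_⟩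
    rw [Subgroup.coe_mul, h2, mul_assoc]
    rfl
  let N : Subgroup H :=
    { carrier := {g | ∃ r : B, (r : H) = g ∧ ∀ (s P : B), Rep P → Rep (P * nn B (r : H) s)}
      one_mem' := by
        refine ⟨1, rfl, fun s P hP => ?_⟩
        have e1 : nn B ((1 : B) : H) s = 1 := by apply Subtype.ext; simp [nn]
        rwa [e1, mul_one]
      mul_mem' := by
        rintro _ _ ⟨r, rfl, hr⟩ ⟨r', rfl, hr'⟩
        refine ⟨r * r', rfl, fun s P hP => ?_⟩
        rw [Subgroup.coe_mul, nn_mul, ← mul_assoc]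
        exact hr' s _ (hr (cj B (r' : H) s) P hP)
      inv_mem' := by
        rintro _ ⟨r, rfl, hr⟩
        refine ⟨r⁻¹, rfl, fun s P hP => ?_⟩
        rw [hinv]
        exact hr s⁻¹ P hP }
  have hN : N.Normal := by
    constructor
    rintro _ ⟨r, rfl, hr⟩ g
    refine ⟨cj B g r, rfl, fun s P hP => ?_⟩
    rw [hconj]
    exact hr _ P hP
  have h1 : Subgroup.normalClosure {t : H | t ∈ T} ≤ N := by
    apply Subgroup.normalClosure_le_normal
    intro t ht
    exact ⟨⟨t, hTB t ht⟩, rfl, hRepT ⟨t, hTB t ht⟩ ht⟩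
  let M : Subgroup H :=
    { carrier := {g | ∃ s : B, (s : H) = g ∧ ∀ (x P : B), (x : H) ∈ A → Rep P →
        Rep (P * nn B (x : H) s)}
      one_mem' := by
        refine ⟨1, rfl, fun x P _ hP => ?_⟩
        have e1 : nn B (x : H) 1 = 1 := by apply Subtype.ext; simp [nn]
        rwa [e1, mul_one]
      mul_mem' := by
        rintro _ _ ⟨r, rfl, hr⟩ ⟨r', rfl, hr'⟩
        refine ⟨r * r', rfl, fun x P hx hP => ?_⟩
        rw [hm, ← mul_assoc]
        exact hr' x _ hx (hr x P hx hP)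
      inv_mem' := by
        rintro _ ⟨r, rfl, hr⟩
        refine ⟨r⁻¹, rfl, fun x P hx hP => ?_⟩
        rw [← hinv]
        exact hr x⁻¹ P (A.inv_mem hx) hP }
  have hM : M.Normal := by
    constructor
    rintro _ ⟨r, rfl, hr⟩ g
    refine ⟨cj B g r, rfl, fun x P hx hP => ?_⟩
    have e := hconj g⁻¹ x r
    rw [inv_inv] at e
    rw [← e]
    refine hr _ P ?_ hP
    have := (inferInstance : A.Normal).conj_mem _ hx g⁻¹
    exact this
  have h2 : Subgroup.normalClosure {t : H | t ∈ T} ≤ M := by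
    apply Subgroup.normalClosure_le_normal
    intro t ht
    refine ⟨⟨t, hTB t ht⟩, rfl, fun x P hx hP => ?_⟩
    rw [hswap]
    exact hRepT ⟨t, hTB t ht⟩ ht _ P hP
  have h3 : A ≤ M := fun s hs => ⟨⟨s, hAB hs⟩, rfl, fun x P hx hP => hRepA x _ hx hs P hP⟩
  have h4 : B ≤ M := hT.trans (sup_le h2 h3)
  have h5 : A ≤ N := by
    intro x hx
    refine ⟨⟨x, hAB hx⟩, rfl, fun s P hP => ?_⟩
    obtain ⟨s', h6, h7⟩ := h4 s.2
    obtain rfl : s' = s := Subtype.ext h6
    exact h7 _ P hx hP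
  have h8 : B ≤ N := hT.trans (sup_le h1 h5)
  refine comm_ind B Rep ⟨1, Rp_one T, 1, Subgroup.one_mem _, by simp⟩ (fun r s P hP => ?_) ha
  obtain ⟨r', h6, h7⟩ := h8 r.2
  obtain rfl : r' = r := Subtype.ext h6
  exact h7 s P hP

end

section

variable {G : Type u} [Group G] {X : Set G}

/-- layers generated by finitely many conjugacy classes and a normal subgroup `A` -/
theorem layer_gen (hX : Subgroup.closure X = ⊤) {k : ℕ} {T : List G} (hT1 : ∀ x ∈ T, x ∈ Bd X k)
    (B : Subgroup G) [B.Normal] (A : Subgroup G) [A.Normal] (hAB : A ≤ B)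
    (hTB : ∀ t ∈ T, t ∈ B)
    (hT : B ≤ Subgroup.normalClosure {t : G | t ∈ T} ⊔ A) {a : G} (ha : a ∈ ⁅B, B⁆) :
    ∃ p ∈ Bd X (3 * k * T.length), ∃ z ∈ ⁅A, A⁆,
      (p * z)⁻¹ * a ∈ ⁅⁅B, B⁆, (⊤ : Subgroup G)⁆ := by
  let M := ⁅⁅B, B⁆, (⊤ : Subgroup G)⁆
  let π := QuotientGroup.mk' M
  have hπ : Function.Surjective π := QuotientGroup.mk'_surjective _
  have hA : (B.map π).Normal := Subgroup.Normal.map inferInstance π hπ
  have hA' : (A.map π).Normal := Subgroup.Normal.map inferInstance π hπ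
  have hc : ⁅B.map π, B.map π⁆ ≤ Subgroup.center (G ⧸ M) := by
    rw [← Subgroup.map_commutator]
    rintro _ ⟨a, ha, rfl⟩
    rw [Subgroup.mem_center_iff]
    intro g
    obtain ⟨g, rfl⟩ := hπ g
    rw [← map_mul, ← map_mul]
    apply QuotientGroup.eq.2
    have : (g * a)⁻¹ * (a * g) = ⁅a⁻¹, g⁻¹⁆ := by rw [commutatorElement_def]; group
    rw [this]
    exact Subgroup.commutator_mem_commutator (Subgroup.inv_mem _ ha) (Subgroup.mem_top _)
  have ha' : π a ∈ ⁅B.map π, B.map π⁆ := by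
    rw [← Subgroup.map_commutator]
    exact Subgroup.mem_map_of_mem π ha
  have hT' : B.map π ≤ Subgroup.normalClosure {t : G ⧸ M | t ∈ T.map π} ⊔ A.map π := by
    have h1 := Subgroup.map_mono (f := π) hT
    rw [Subgroup.map_sup] at h1
    refine h1.trans (sup_le_sup ?_ le_rfl)
    rw [Subgroup.map_normalClosure _ _ hπ]
    apply Subgroup.normalClosure_mono
    rintro _ ⟨t, ht, rfl⟩
    exact List.mem_map_of_mem ht
  have hTB' : ∀ t ∈ T.map π, t ∈ B.map π := by
    intro t ht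
    rw [List.mem_map] at ht
    obtain ⟨s, hs, rfl⟩ := ht
    exact Subgroup.mem_map_of_mem π (hTB s hs)
  obtain ⟨P, h1, P', ⟨l', h2, h3⟩, z', hz', h10⟩ :=
    Rp_gen hc (A.map π) (Subgroup.map_mono hAB) hTB' hT' ha'
  rw [← Subgroup.map_commutator] at hz'
  obtain ⟨z, hz, rfl⟩ := hz'
  obtain ⟨l, h4, h5, h6⟩ := lift_list π B T (l'.map fun p => (p.1, (p.2 : G ⧸ M)))
    (by rw [List.map_map, ← h2]; rfl) (by
      intro p hp
      rw [List.mem_map] at hp
      obtain ⟨q, _, rfl⟩ := hp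
      exact q.2.2)
  have h7 : π (yy l * z) = π a := by rw [map_mul, yy_map, h6, yy_YB, h3, ← h1, h10]
  refine ⟨yy l, ?_, z, hz, QuotientGroup.eq.1 h7⟩
  have h8 := bd_yy hX (k := k) l fun p hp => hT1 p.1 (by
    rw [← h4]; exact List.mem_map_of_mem hp)
  have h9 : l.length = T.length := by rw [← h4, List.length_map]
  rwa [h9] at h8

end

end Pool.Agent.T9h90.PW
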