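import Pool.Agent.T9h90.PW.Class2

/-! # Abelian layers, and layers generated by finitely many conjugacy classes; lifting -/

set_option autoImplicit false

universe u

namespace Pool.Agent.T9h90.PW

open scoped commutatorElement
open Pool.Agent.Results.MP_738270_al.SomeGenSet

section

variable {H : Type u} [Group H] (B : Subgroup H) [hB : B.Normal]

/-- a predicate which is preserved by right multiplication with commutators of elements of `B` -/
lemma comm_ind (Rep : B → Prop) (h1 : Rep 1)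
    (h2 : ∀ (r s : B) (P : B), Rep P → Rep (P * nn B (r : H) s)) {a : H} (ha : a ∈ ⁅B, B⁆) :
    ∃ P : B, (P : H) = a ∧ Rep P := by
  have h3 : ∀ y ∈ Submonoid.closure
      ({g : H | ∃ g₁ ∈ B, ∃ g₂ ∈ B, ⁅g₁, g₂⁆ = g} ∪ {g : H | ∃ g₁ ∈ B, ∃ g₂ ∈ B, ⁅g₁, g₂⁆ = g}⁻¹),
      ∀ P : B, Rep P → ∃ P' : B, (P' : H) = P * y ∧ Rep P' := by
    intro y hy
    induction hy using Submonoid.closure_induction with
    | mem x hx =>
      intro P hP
      rcases hx with ⟨r, hr, s, hs, rfl⟩ | hx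
      · exact ⟨P * nn B r ⟨s, hs⟩, rfl, h2 ⟨r, hr⟩ ⟨s, hs⟩ P hP⟩
      · obtain ⟨r, hr, s, hs, h⟩ := hx
        refine ⟨P * nn B s ⟨r, hr⟩, ?_, h2 ⟨s, hs⟩ ⟨r, hr⟩ P hP⟩
        have : x = ⁅s, r⁆ := by rw [← commutatorElement_inv, h, inv_inv]
        rw [this]; rfl
    | one => exact fun P hP => ⟨P, by simp, hP⟩
    | mul x y _ _ ihx ihy =>
      intro P hP
      obtain ⟨P1, h1, h2⟩ := ihx P hP
      obtain ⟨P2, h3, h4⟩ := ihy P1 h2
      exact ⟨P2, by rw [h3, h1, mul_assoc], h4⟩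
  have ha' : a ∈ Submonoid.closure
      ({g : H | ∃ g₁ ∈ B, ∃ g₂ ∈ B, ⁅g₁, g₂⁆ = g} ∪
        {g : H | ∃ g₁ ∈ B, ∃ g₂ ∈ B, ⁅g₁, g₂⁆ = g}⁻¹) := by
    rw [← Subgroup.closure_toSubmonoid, Subgroup.mem_toSubmonoid, ← Subgroup.commutator_def]
    exact ha
  obtain ⟨P, h4, h5⟩ := h3 a ha' 1 h1
  exact ⟨P, by simpa using h4, h5⟩

/-- a predicate which is preserved by right multiplication with commutators `⁅g, s⁆`, `s ∈ B` -/
lemma comm_top_ind (Rep : B → Prop) (h1 : Rep 1)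
    (h2 : ∀ (g : H) (s : B) (P : B), Rep P → Rep (P * nn B g s))
    (h2' : ∀ (g : H) (s : B) (P : B), Rep P → Rep (P * (nn B g s)⁻¹)) {a : H}
    (ha : a ∈ ⁅B, (⊤ : Subgroup H)⁆) :
    ∃ P : B, (P : H) = a ∧ Rep P := by
  have h3 : ∀ y ∈ Submonoid.closure
      ({g : H | ∃ g₁ ∈ B, ∃ g₂ ∈ (⊤ : Subgroup H), ⁅g₁, g₂⁆ = g} ∪
        {g : H | ∃ g₁ ∈ B, ∃ g₂ ∈ (⊤ : Subgroup H), ⁅g₁, g₂⁆ = g}⁻¹),
      ∀ P : B, Rep P → ∃ P' : B, (P' : H) = P * y ∧ Rep P' := by
    intro y hy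
    induction hy using Submonoid.closure_induction with
    | mem x hx =>
      intro P hP
      rcases hx with ⟨r, hr, s, -, rfl⟩ | hx
      · refine ⟨P * (nn B s ⟨r, hr⟩)⁻¹, ?_, h2' s ⟨r, hr⟩ P hP⟩
        rw [← commutatorElement_inv]; rfl
      · obtain ⟨r, hr, s, -, h⟩ := hx
        refine ⟨P * nn B s ⟨r, hr⟩, ?_, h2 s ⟨r, hr⟩ P hP⟩
        have : x = ⁅s, r⁆ := by rw [← commutatorElement_inv, h, inv_inv]
        rw [this]; rfl
    | one => exact fun P hP => ⟨P, by simp, hP⟩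
    | mul x y _ _ ihx ihy =>
      intro P hP
      obtain ⟨P1, h1, h2⟩ := ihx P hP
      obtain ⟨P2, h3, h4⟩ := ihy P1 h2
      exact ⟨P2, by rw [h3, h1, mul_assoc], h4⟩
  have ha' : a ∈ Submonoid.closure
      ({g : H | ∃ g₁ ∈ B, ∃ g₂ ∈ (⊤ : Subgroup H), ⁅g₁, g₂⁆ = g} ∪
        {g : H | ∃ g₁ ∈ B, ∃ g₂ ∈ (⊤ : Subgroup H), ⁅g₁, g₂⁆ = g}⁻¹) := by
    rw [← Subgroup.closure_toSubmonoid, Subgroup.mem_toSubmonoid, ← Subgroup.commutator_def]
    exact ha
  obtain ⟨P, h4, h5⟩ := h3 a ha' 1 h1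
  exact ⟨P, by simpa using h4, h5⟩

variable {B}

lemma YB_ones (M : List H) : YB B (M.map fun x => (x, (1 : B))) = 1 := by
  induction M with
  | nil => rfl
  | cons a M ihM =>
    simp only [List.map_cons, YB, ihM, mul_one]
    apply Subtype.ext; simp [nn]

/-- `P` is a product `∏ ⁅x, s⁆`, `x` in `L` -/
def Rp (L : List H) (P : B) : Prop :=
  ∃ l : List (H × B), l.map Prod.fst = L ∧ YB B l = P

lemma Rp_one (L : List H) : Rp L (1 : B) :=
  ⟨L.map fun x => (x, (1 : B)), by simp [List.map_map, Function.comp_def], YB_ones L⟩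

/-- one step, for the letters `x` for which `⁅x, ⬝⁆` is additive and central in `B` -/
lemma Rp_step {L : List H} {x : H} (hx : x ∈ L)
    (hm : ∀ t s : B, nn B x (t * s) = nn B x t * nn B x s)
    (hz : ∀ s c : B, nn B x s * c = c * nn B x s) (s : B) {P : B} (h : Rp L P) :
    Rp L (P * nn B x s) := by
  obtain ⟨l, rfl, rfl⟩ := h
  induction l with
  | nil => simp at hx
  | cons p l ih =>
    obtain ⟨h, t⟩ := p
    rw [List.map_cons, List.mem_cons] at hx
    by_cases hx' : x ∈ l.map Prod.fst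
    · obtain ⟨l', h1, h2⟩ := ih hx'
      exact ⟨(h, t) :: l', by simp [h1], by simp only [YB, h2, mul_assoc]⟩
    · obtain rfl : x = h := by
        rcases hx with h | h
        · exact h
        · exact absurd h hx'
      refine ⟨(x, t * s) :: l, rfl, ?_⟩
      simp only [YB]
      rw [hm, mul_assoc, hz s (YB B l), ← mul_assoc]

lemma Rp_abelian (hab : ∀ a b : B, a * b = b * a) {L : List H}
    (hL : Submonoid.closure {y : H | y ∈ L} = ⊤) {a : H} (ha : a ∈ ⁅B, (⊤ : Subgroup H)⁆) :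
    ∃ P : B, (P : H) = a ∧ Rp L P := by
  have hm : ∀ (x : H) (t s : B), nn B x (t * s) = nn B x t * nn B x s := by
    intro x t s
    rw [nn_eq, nn_eq, nn_eq, cj_mul, mul_inv_rev, hab s⁻¹ t⁻¹]
    rw [mul_assoc, mul_assoc, ← mul_assoc (cj B x s), hab (cj B x s) t⁻¹, mul_assoc]
  have hgen : ∀ g ∈ Submonoid.closure {y : H | y ∈ L}, ∀ (s P : B), Rp L P →
      Rp L (P * nn B g s) := by
    intro g hg
    induction hg using Submonoid.closure_induction with
    | mem x hx => exact fun s P h => Rp_step hx (hm x) (fun s c => hab _ _) s h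
    | one =>
      intro s P h
      have e1 : nn B (1 : H) s = 1 := by apply Subtype.ext; simp [nn]
      rwa [e1, mul_one]
    | mul g h _ _ ihg ihh =>
      intro s P hP
      rw [nn_mul, ← mul_assoc]
      exact ihh s _ (ihg (cj B h s) P hP)
  refine comm_top_ind B (Rp L) (Rp_one L) (fun g s P hP => hgen g (by rw [hL]; trivial) s P hP)
    (fun g s P hP => ?_) ha
  have e : (nn B g s)⁻¹ = nn B g s⁻¹ := by
    have := hm g s s⁻¹
    have e1 : nn B g (1 : B) = 1 := by apply Subtype.ext; simp [nn]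
    rw [mul_inv_cancel, e1] at this
    exact (eq_inv_of_mul_eq_one_right this.symm).symm
  rw [e]
  exact hgen g (by rw [hL]; trivial) _ P hP

lemma Rp_fg (hc : ⁅B, B⁆ ≤ Subgroup.center H) {T : List H} (hTB : ∀ t ∈ T, t ∈ B)
    (hT : B ≤ Subgroup.normalClosure {t : H | t ∈ T} ⊔ ⁅B, B⁆) {a : H} (ha : a ∈ ⁅B, B⁆) :
    ∃ P : B, (P : H) = a ∧ Rp T P := by
  have hcen : ∀ (r s : B), ((nn B (r : H) s : B) : H) = (om B hc r s).val := fun _ _ => rfl
  have hz : ∀ (r s c : B), nn B (r : H) s * c = c * nn B (r : H) s := by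
    intro r s c
    apply Subtype.ext
    rw [Subgroup.coe_mul, Subgroup.coe_mul, hcen, cen]
  have hm : ∀ (r t s : B), nn B (r : H) (t * s) = nn B (r : H) t * nn B (r : H) s := by
    intro r t s
    apply Subtype.ext
    rw [Subgroup.coe_mul, hcen, hcen, hcen, om_mul_right, val_add]
  have hinv : ∀ (r s : B), nn B ((r⁻¹ : B) : H) s = nn B (r : H) s⁻¹ := by
    intro r s
    apply Subtype.ext
    rw [hcen, hcen, om_inv_left, om_swap hc r s⁻¹, om_inv_left, om_swap hc r s]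
  have hconj : ∀ (g : H) (r s : B), nn B ((cj B g r : B) : H) s = nn B (r : H) (cj B g⁻¹ s) := by
    intro g r s
    apply Subtype.ext
    rw [hcen, hcen, ← om_conj hc g r (cj B g⁻¹ s)]
    congr 2
    apply Subtype.ext
    simp only [cj]; group
  let N : Subgroup H :=
    { carrier := {g | ∃ r : B, (r : H) = g ∧ ∀ (s P : B), Rp T P → Rp T (P * nn B (r : H) s)}
      one_mem' := by
        refine ⟨1, rfl, fun s P hP => ?_⟩
        have e1 : nn B ((1 : B) : H) s = 1 := by apply Subtype.ext; simp [nn]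
        rwa [e1, mul_one]
      mul_mem' := by
        rintro _ _ ⟨r, rfl, hr⟩ ⟨r', rfl, hr'⟩
        refine ⟨r * r', rfl, fun s P hP => ?_⟩
        rw [Subgroup.coe_mul, nn_mul, ← mul_assoc]
        exact hr' s _ (hr (cj B (r' : H) s) P hP)
      inv_mem' := by
        rintro _ ⟨r, rfl, hr⟩
        refine ⟨r⁻¹, rfl, fun s P hP => ?_⟩
        rw [hinv]
        exact hr s⁻¹ P hP }
  have hN : N.Normal := by
    constructor
    rintro _ ⟨r, rfl, hr⟩ g
    refine ⟨cj B g r, rfl, fun s P hP => ?_⟩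
    rw [hconj]
    exact hr _ P hP
  have h1 : Subgroup.normalClosure {t : H | t ∈ T} ≤ N := by
    apply Subgroup.normalClosure_le_normal
    intro t ht
    exact ⟨⟨t, hTB t ht⟩, rfl, fun s P hP => Rp_step ht (hm ⟨t, hTB t ht⟩) (hz ⟨t, hTB t ht⟩) s hP⟩
  have h2 : ⁅B, B⁆ ≤ N := by
    intro z hzz
    have hzB : z ∈ B := Subgroup.commutator_le_left B B hzz
    refine ⟨⟨z, hzB⟩, rfl, fun s P hP => ?_⟩
    have e1 : nn B z s = 1 := by
      apply Subtype.ext
      have := Subgroup.mem_center_iff.1 (hc hzz) (s : H)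
      simp only [nn, Subgroup.coe_one, commutatorElement_def, ← this]
      group
    change Rp T (P * nn B z s)
    rwa [e1, mul_one]
  have h3 : B ≤ N := hT.trans (sup_le h1 h2)
  refine comm_ind B (Rp T) (Rp_one T) (fun r s P hP => ?_) ha
  obtain ⟨r', h4, h5⟩ := h3 r.2
  obtain rfl : r' = r := Subtype.ext h4
  exact h5 s P hP

end

section

variable {G : Type u} [Group G] {X : Set G}

lemma lift_list {K : Type u} [Group K] (π : G →* K) (A : Subgroup G) (L : List G)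
    (l' : List (K × K)) (h1 : l'.map Prod.fst = L.map π) (h2 : ∀ p ∈ l', p.2 ∈ A.map π) :
    ∃ l : List (G × G), l.map Prod.fst = L ∧ (∀ p ∈ l, p.2 ∈ A) ∧
      l.map (Prod.map π π) = l' := by
  induction L generalizing l' with
  | nil =>
    have : l' = [] := by simpa using h1
    subst this
    exact ⟨[], rfl, by simp, rfl⟩
  | cons x L ih =>
    cases l' with
    | nil => simp at h1
    | cons p l' =>
      simp only [List.map_cons, List.cons.injEq] at h1
      obtain ⟨l, h3, h4, h5⟩ := ih l' h1.2 fun q hq => h2 q (by simp [hq])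
      obtain ⟨s, hs, hs'⟩ := h2 p (by simp)
      refine ⟨(x, s) :: l, by simp [h3], ?_, ?_⟩
      · intro q hq
        rcases List.mem_cons.1 hq with rfl | hq
        · exact hs
        · exact h4 q hq
      · simp only [List.map_cons, h5, List.cons.injEq, and_true]
        exact Prod.ext h1.1.symm hs'

lemma closure_map {K : Type u} [Group K] (π : G →* K) (hπ : Function.Surjective π) {L : List G}
    (hL : Submonoid.closure {y : G | y ∈ L} = ⊤) :
    Submonoid.closure {y : K | y ∈ L.map π} = ⊤ := by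
  have : {y : K | y ∈ L.map π} = π '' {y : G | y ∈ L} := by ext; simp
  rw [this, ← MonoidHom.map_mclosure, hL, ← MonoidHom.mrange_eq_map]
  exact MonoidHom.mrange_eq_top.2 hπ

/-- the abelian layer -/
theorem layer_comm (hX : Subgroup.closure X = ⊤) {L : List G}
    (hL : Submonoid.closure {y : G | y ∈ L} = ⊤) (hL1 : ∀ x ∈ L, x ∈ Bd X 1)
    (A : Subgroup G) [A.Normal] {g : G} (hg : g ∈ ⁅A, (⊤ : Subgroup G)⁆) :
    ∃ p ∈ Bd X (3 * L.length), p⁻¹ * g ∈ ⁅A, A⁆ := by
  let π := QuotientGroup.mk' ⁅A, A⁆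
  have hπ : Function.Surjective π := QuotientGroup.mk'_surjective _
  have hA : (A.map π).Normal := Subgroup.Normal.map inferInstance π hπ
  have hab : ∀ a b : A.map π, a * b = b * a := by
    rintro ⟨_, a, ha, rfl⟩ ⟨_, b, hb, rfl⟩
    apply Subtype.ext
    change π a * π b = π b * π a
    rw [← map_mul, ← map_mul]
    apply QuotientGroup.eq.2
    have : (a * b)⁻¹ * (b * a) = ⁅b⁻¹, a⁻¹⁆ := by rw [commutatorElement_def]; group
    rw [this]
    exact Subgroup.commutator_mem_commutator (A.inv_mem hb) (A.inv_mem ha)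
  have hg' : π g ∈ ⁅A.map π, (⊤ : Subgroup (G ⧸ ⁅A, A⁆))⁆ := by
    have h1 := Subgroup.mem_map_of_mem π hg
    rw [Subgroup.map_commutator, ← MonoidHom.range_eq_map, MonoidHom.range_eq_top.2 hπ] at h1
    exact h1
  obtain ⟨P, h1, l', h2, h3⟩ := Rp_abelian hab (closure_map π hπ hL) hg'
  obtain ⟨l, h4, h5, h6⟩ := lift_list π A L (l'.map fun p => (p.1, (p.2 : G ⧸ ⁅A, A⁆)))
    (by rw [List.map_map, ← h2]; rfl) (by
      intro p hp
      rw [List.mem_map] at hp
      obtain ⟨q, _, rfl⟩ := hp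
      exact q.2.2)
  have h7 : π (yy l) = π g := by rw [yy_map, h6, yy_YB, h3, h1]
  refine ⟨yy l, ?_, QuotientGroup.eq.1 h7⟩
  have h8 := bd_yy hX (k := 1) l fun p hp => hL1 p.1 (by
    rw [← h4]; exact List.mem_map_of_mem hp)
  have h9 : l.length = L.length := by rw [← h4, List.length_map]
  rw [h9] at h8
  simpa using h8

/-- squares -/
theorem layer_sq (hX : Subgroup.closure X = ⊤) {L : List G}
    (hL : Submonoid.closure {y : G | y ∈ L} = ⊤) (hL1 : ∀ x ∈ L, x ∈ Bd X 1)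
    (B : Subgroup G) [B.Normal] {a : G} (ha : a ∈ ⁅B, B⁆) :
    ∃ p ∈ Bd X (24 * L.length), p⁻¹ * a ^ 2 ∈ ⁅⁅B, B⁆, (⊤ : Subgroup G)⁆ := by
  let M := ⁅⁅B, B⁆, (⊤ : Subgroup G)⁆
  let π := QuotientGroup.mk' M
  have hπ : Function.Surjective π := QuotientGroup.mk'_surjective _
  have hA : (B.map π).Normal := Subgroup.Normal.map inferInstance π hπ
  have hc : ⁅B.map π, B.map π⁆ ≤ Subgroup.center (G ⧸ M) := by
    rw [← Subgroup.map_commutator]
    rintro _ ⟨a, ha, rfl⟩
    rw [Subgroup.mem_center_iff]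
    intro g
    obtain ⟨g, rfl⟩ := hπ g
    rw [← map_mul, ← map_mul]
    apply QuotientGroup.eq.2
    have : (g * a)⁻¹ * (a * g) = ⁅a⁻¹, g⁻¹⁆ := by rw [commutatorElement_def]; group
    rw [this]
    exact Subgroup.commutator_mem_commutator (Subgroup.inv_mem _ ha) (Subgroup.mem_top _)
  have ha' : π a ∈ ⁅B.map π, B.map π⁆ := by
    rw [← Subgroup.map_commutator]
    exact Subgroup.mem_map_of_mem π ha
  obtain ⟨l', h2, h3, h1⟩ := square hc (closure_map π hπ hL) ha'
  obtain ⟨l, h4, h5, h6⟩ := lift_list π B L l' h2 h3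
  have h7 : π (rr l * yy l ^ 2) = π (a ^ 2) := by
    rw [map_mul, map_pow, rr_map, yy_map, h6, map_pow, h1]
  refine ⟨rr l * yy l ^ 2, ?_, QuotientGroup.eq.1 h7⟩
  have hl : ∀ p ∈ l, p.1 ∈ Bd X 1 := fun p hp => hL1 p.1 (by
    rw [← h4]; exact List.mem_map_of_mem hp)
  have h8 := bd_yy hX (k := 1) l hl
  have h9 : l.length = L.length := by rw [← h4, List.length_map]
  have h10 := bd_rr hX l hl
  rw [h9] at h8 h10
  have := bd_mul h10 (bd_mul h8 h8)
  rw [← pow_two] at this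
  refine bd_mono ?_ this
  omega

/-- layers generated by finitely many conjugacy classes -/
theorem layer_fg (hX : Subgroup.closure X = ⊤) {k : ℕ} {T : List G} (hT1 : ∀ x ∈ T, x ∈ Bd X k)
    (B : Subgroup G) [B.Normal] (hTB : ∀ t ∈ T, t ∈ B)
    (hT : B ≤ Subgroup.normalClosure {t : G | t ∈ T} ⊔ ⁅B, B⁆) {a : G} (ha : a ∈ ⁅B, B⁆) :
    ∃ p ∈ Bd X (3 * k * T.length), p⁻¹ * a ∈ ⁅⁅B, B⁆, (⊤ : Subgroup G)⁆ := by
  let M := ⁅⁅B, B⁆, (⊤ : Subgroup G)⁆
  let π := QuotientGroup.mk' M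
  have hπ : Function.Surjective π := QuotientGroup.mk'_surjective _
  have hA : (B.map π).Normal := Subgroup.Normal.map inferInstance π hπ
  have hc : ⁅B.map π, B.map π⁆ ≤ Subgroup.center (G ⧸ M) := by
    rw [← Subgroup.map_commutator]
    rintro _ ⟨a, ha, rfl⟩
    rw [Subgroup.mem_center_iff]
    intro g
    obtain ⟨g, rfl⟩ := hπ g
    rw [← map_mul, ← map_mul]
    apply QuotientGroup.eq.2
    have : (g * a)⁻¹ * (a * g) = ⁅a⁻¹, g⁻¹⁆ := by rw [commutatorElement_def]; group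
    rw [this]
    exact Subgroup.commutator_mem_commutator (Subgroup.inv_mem _ ha) (Subgroup.mem_top _)
  have ha' : π a ∈ ⁅B.map π, B.map π⁆ := by
    rw [← Subgroup.map_commutator]
    exact Subgroup.mem_map_of_mem π ha
  have hT' : B.map π ≤ Subgroup.normalClosure {t : G ⧸ M | t ∈ T.map π} ⊔
      ⁅B.map π, B.map π⁆ := by
    have h1 := Subgroup.map_mono (f := π) hT
    rw [Subgroup.map_sup, Subgroup.map_commutator] at h1
    refine h1.trans (sup_le_sup ?_ le_rfl)
    rw [Subgroup.map_normalClosure _ _ hπ]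
    apply Subgroup.normalClosure_mono
    rintro _ ⟨t, ht, rfl⟩
    exact List.mem_map_of_mem ht
  have hTB' : ∀ t ∈ T.map π, t ∈ B.map π := by
    intro t ht
    rw [List.mem_map] at ht
    obtain ⟨s, hs, rfl⟩ := ht
    exact Subgroup.mem_map_of_mem π (hTB s hs)
  obtain ⟨P, h1, l', h2, h3⟩ := Rp_fg hc hTB' hT' ha'
  obtain ⟨l, h4, h5, h6⟩ := lift_list π B T (l'.map fun p => (p.1, (p.2 : G ⧸ M)))
    (by rw [List.map_map, ← h2]; rfl) (by
      intro p hp
      rw [List.mem_map] at hp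
      obtain ⟨q, _, rfl⟩ := hp
      exact q.2.2)
  have h7 : π (yy l) = π a := by rw [yy_map, h6, yy_YB, h3, h1]
  refine ⟨yy l, ?_, QuotientGroup.eq.1 h7⟩
  have h8 := bd_yy hX (k := k) l fun p hp => hT1 p.1 (by
    rw [← h4]; exact List.mem_map_of_mem hp)
  have h9 : l.length = T.length := by rw [← h4, List.length_map]
  rwa [h9] at h8

end

end Pool.Agent.T9h90.PW
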