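import Pool.Agent.T9h90.PW.Final

/-!
# Palindromic width of finitely generated solvable groups for every finite generating set

Partial answer to question Q2.  The palindromic length and the palindromic width are those of
`Pool.Agent.Results.MP_738270_al.SomeGenSet`.
-/

set_option autoImplicit false

universe u

namespace Pool.Agent.Results.MP_738270_al.TwoDivisibleLayers

open scoped commutatorElement
open Pool.Agent.T9h90.PW
open Pool.Agent.Results.MP_738270_al.SomeGenSet (palLength palWidth)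

/-- `G` is generated by the finite set `X` with at most `d` elements, and the `s`-th derived
subgroup of `G` is trivial. -/
def SolvGen (d s : ℕ) (G : Type u) [Group G] (X : Finset G) : Prop :=
  X.card ≤ d ∧ Subgroup.closure (X : Set G) = ⊤ ∧ derivedSeries G s = ⊥

/-- the constants for the powers -/
def pb (d : ℕ) : ℕ → ℕ
  | 0 => 16 * d + 9 * (d * d)
  | n + 1 => pb d n + pb d n + 48 * d + 6 * d

/-- the powers -/
lemma powers {G : Type u} [Group G] {X : Finset G} {d : ℕ} (hd : X.card ≤ d)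
    (hX : Subgroup.closure (X : Set G) = ⊤) (n : ℕ) (g : G) :
    ∃ p ∈ Bd (X : Set G) (pb d n), p⁻¹ * g ^ (2 ^ n) ∈ derivedSeries G (n + 3) := by
  induction n with
  | zero =>
    obtain ⟨p, hp, hp'⟩ := cov_three hX g
    refine ⟨p, bd_mono ?_ hp, by simpa using hp'⟩
    simp only [pb]
    gcongr
  | succ n ih =>
    obtain ⟨p, hp, hp'⟩ := ih
    set A := derivedSeries G (n + 3) with hA
    set a := p⁻¹ * g ^ (2 ^ n) with ha
    have eA : A = ⁅derivedSeries G (n + 2), derivedSeries G (n + 2)⁆ := rfl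
    obtain ⟨q, hq, hq'⟩ := layer_sq' hX (derivedSeries G (n + 2)) (a := a) (by rwa [← eA])
    rw [← eA] at hq'
    have e1 : g ^ (2 ^ (n + 1)) = p * p * a ^ 2 * ⁅a⁻¹, a⁻¹ * p⁻¹⁆ := by
      have : g ^ (2 ^ n) = p * a := by rw [ha]; group
      rw [pow_succ, pow_mul, this, commutatorElement_def, pow_two, pow_two]
      group
    have h2 : ⁅a⁻¹, a⁻¹ * p⁻¹⁆ ∈ ⁅A, (⊤ : Subgroup G)⁆ :=
      Subgroup.commutator_mem_commutator (A.inv_mem hp') (Subgroup.mem_top _)
    have h3 : q⁻¹ * a ^ 2 * ⁅a⁻¹, a⁻¹ * p⁻¹⁆ ∈ ⁅A, (⊤ : Subgroup G)⁆ := Subgroup.mul_mem _ hq' h2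
    obtain ⟨r, hr, hr'⟩ := layer_comm' hX A h3
    refine ⟨p * p * q * r, ?_, ?_⟩
    · refine bd_mono ?_ (bd_mul (bd_mul (bd_mul hp hp) hq) hr)
      simp only [pb]
      gcongr
    · have e2 : derivedSeries G (n + 1 + 3) = ⁅A, A⁆ := rfl
      rw [e2, e1]
      convert hr' using 1
      group

lemma cov_climb' {G : Type u} [Group G] {X : Finset G} {d s : ℕ} (h : SolvGen d s G X)
    (k : ℕ → ℕ)
    (hk : ∀ n, n + 3 < s → ∀ K, Cov (X : Set G) (derivedSeries G (n + 3)) K →
      ∀ a ∈ derivedSeries G (n + 3), ∃ p ∈ Bd (X : Set G) (k K),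
        p⁻¹ * a ∈ ⁅derivedSeries G (n + 3), (⊤ : Subgroup G)⁆) :
    palWidth (X : Set G) ≤ (bnd d k (s - 3) : ℕ) := by
  obtain ⟨h1, h2, h3⟩ := h
  refine width_of_cov h3 ?_
  by_cases hs : 3 ≤ s
  · have := cov_climb h1 h2 k s hk (s - 3) (by omega)
    rwa [Nat.sub_add_cancel hs] at this
  · have h4 : s - 3 = 0 := by omega
    rw [h4]
    refine cov_mono ?_ (cov_small h2 (by omega))
    simp only [bnd]
    gcongr

/-- squares of elements of a layer modulo `⁅A, ⊤⁆`, up to a left factor -/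
lemma sq_layer {G : Type u} [Group G] {X : Finset G} (hX : Subgroup.closure (X : Set G) = ⊤)
    (n : ℕ) {b c : G} (hb : b ∈ derivedSeries G (n + 3))
    (hc : c ∈ ⁅derivedSeries G (n + 3), (⊤ : Subgroup G)⁆) :
    ∃ p ∈ Bd (X : Set G) (48 * X.card),
      p⁻¹ * (b ^ 2 * c) ∈ ⁅derivedSeries G (n + 3), (⊤ : Subgroup G)⁆ := by
  obtain ⟨q, hq, hq'⟩ := layer_sq' hX (derivedSeries G (n + 2)) (a := b) hb
  refine ⟨q, hq, ?_⟩
  rw [← mul_assoc]
  exact Subgroup.mul_mem _ hq' hc

/-- the commutator criterion -/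
lemma comm_layer {G : Type u} [Group G] {X : Finset G} (hX : Subgroup.closure (X : Set G) = ⊤)
    (A : Subgroup G) [A.Normal] {K : ℕ} (hA : Cov (X : Set G) A K) (l : List (G × G)) :
    ∃ p ∈ Bd (X : Set G) (3 * K * l.length),
      p⁻¹ * (l.map fun p => ⁅p.1, p.2⁆).prod ∈ ⁅A, (⊤ : Subgroup G)⁆ := by
  choose p hp hp' using hA
  refine ⟨yy (l.map fun q => (p q.1, q.2)), ?_, ?_⟩
  · have := bd_yy hX (k := K) (l.map fun q => (p q.1, q.2)) (by
      intro q hq
      rw [List.mem_map] at hq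
      obtain ⟨r, _, rfl⟩ := hq
      exact hp _)
    rwa [List.length_map] at this
  · induction l with
    | nil => simp [yy]
    | cons q l ih =>
      have h1 : ⁅p q.1, q.2⁆⁻¹ * ⁅q.1, q.2⁆ ∈ ⁅A, (⊤ : Subgroup G)⁆ := by
        have e : ⁅p q.1, q.2⁆⁻¹ * ⁅q.1, q.2⁆ =
            (⁅p q.1, q.2⁆⁻¹ * p q.1) * ⁅(p q.1)⁻¹ * q.1, q.2⁆ * (⁅p q.1, q.2⁆⁻¹ * p q.1)⁻¹ := by
          simp only [commutatorElement_def]; group
        rw [e]
        exact (inferInstance : ⁅A, (⊤ : Subgroup G)⁆.Normal).conj_mem _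
          (Subgroup.commutator_mem_commutator (hp' _) (Subgroup.mem_top _)) _
      have h2 := (inferInstance : ⁅A, (⊤ : Subgroup G)⁆.Normal).conj_mem _ h1
        (yy (l.map fun q => (p q.1, q.2)))⁻¹
      have h3 := Subgroup.mul_mem _ h2 ih
      convert h3 using 1
      simp only [yy, List.map_cons, List.prod_cons]
      group

/-- **Theorem.** Let `G` be a group with a finite generating set `X` and derived series
`G = G^(0) ≥ G^(1) ≥ ...`.

(1) There is a bound `K`, depending only on `|X|` and the derived length `s`, such that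
`g ^ (2 ^ (s - 3))` is a product of at most `K` palindromes for every `g`; and `PW(G, X) ≤ K` if
for `3 ≤ i < s` every element of `G^(i)` is the square of an element of `G^(i)` modulo
`[G^(i), G]`, in particular if every element of `G^(3)` has odd order.

(2) `PW(G, X) ≤ K(|X|, s, m)` if every element of `G^(3)` is a product of at most `m` commutators
of elements of `G`.

(3) `PW(G, X) < ∞` for every finite generating set `X` if `G` is solvable and for every `i ≥ 3`
either `G^(i-1)` is, modulo `G^(i)`, the normal closure of a finite subset, or `G^(i)` is covered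
by finitely many sets `t · {b ^ 2 : b ∈ G^(i)} · [G^(i), G]`. -/
theorem result :
    (∀ d s : ℕ, ∃ K : ℕ, ∀ (G : Type u) [Group G] (X : Finset G), SolvGen d s G X →
      (∀ g : G, palLength (X : Set G) (g ^ (2 ^ (s - 3))) ≤ K) ∧
      ((∀ i, 3 ≤ i → i < s → ∀ a ∈ derivedSeries G i, ∃ b ∈ derivedSeries G i,
          ∃ c ∈ ⁅derivedSeries G i, (⊤ : Subgroup G)⁆, a = b ^ 2 * c) →
        palWidth (X : Set G) ≤ K) ∧
      ((∀ a ∈ derivedSeries G 3, Odd (orderOf a)) → palWidth (X : Set G) ≤ K)) ∧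
    (∀ d s m : ℕ, ∃ K : ℕ, ∀ (G : Type u) [Group G] (X : Finset G), SolvGen d s G X →
      (∀ a ∈ derivedSeries G 3, ∃ l : List (G × G), l.length ≤ m ∧
        (l.map fun p => ⁅p.1, p.2⁆).prod = a) → palWidth (X : Set G) ≤ K) ∧
    (∀ (G : Type u) [Group G], Group.IsSolvable G →
      (∀ i, 3 ≤ i →
        (∃ T : Finset G, (∀ t ∈ T, t ∈ derivedSeries G (i - 1)) ∧
          derivedSeries G (i - 1) ≤ Subgroup.normalClosure (T : Set G) ⊔ derivedSeries G i) ∨
        (∃ T : Finset G, ∀ a ∈ derivedSeries G i, ∃ t ∈ T, ∃ b ∈ derivedSeries G i,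
          ∃ c ∈ ⁅derivedSeries G i, (⊤ : Subgroup G)⁆, a = t * (b ^ 2 * c))) →
      ∀ X : Finset G, Subgroup.closure (X : Set G) = ⊤ → palWidth (X : Set G) < ⊤) := by
  refine ⟨?_, ?_, ?_⟩
  · intro d s
    refine ⟨pb d (s - 3) + bnd d (fun _ => 48 * d) (s - 3), ?_⟩
    intro G _ X hG
    have hd := hG.1
    have hX := hG.2.1
    have main : (∀ i, 3 ≤ i → i < s → ∀ a ∈ derivedSeries G i, ∃ b ∈ derivedSeries G i,
          ∃ c ∈ ⁅derivedSeries G i, (⊤ : Subgroup G)⁆, a = b ^ 2 * c) →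
        palWidth (X : Set G) ≤ (pb d (s - 3) + bnd d (fun _ => 48 * d) (s - 3) : ℕ) := by
      intro h
      refine (cov_climb' hG (fun _ => 48 * d) ?_).trans (by norm_cast; omega)
      intro n hn K _ a ha
      obtain ⟨b, hb, c, hc, rfl⟩ := h (n + 3) (by omega) hn a ha
      obtain ⟨p, hp, hp'⟩ := sq_layer hX n hb hc
      exact ⟨p, bd_mono (by gcongr) hp, hp'⟩
    refine ⟨fun g => ?_, main, fun h => main fun i hi _ a ha => ?_⟩
    · by_cases hs : 3 ≤ s
      · obtain ⟨p, hp, hp'⟩ := powers hd hX (s - 3) g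
        rw [Nat.sub_add_cancel hs, hG.2.2, Subgroup.mem_bot, inv_mul_eq_one] at hp'
        rw [← hp']
        exact (palLength_le hp).trans (by norm_cast; omega)
      · obtain ⟨p, hp, hp'⟩ := cov_small hX (s := s) (by omega) g
        have h0 : s - 3 = 0 := by omega
        rw [hG.2.2, Subgroup.mem_bot, inv_mul_eq_one] at hp'
        rw [h0, pow_zero, pow_one, ← hp']
        refine (palLength_le hp).trans ?_
        norm_cast
        refine le_trans ?_ (Nat.le_add_right _ _)
        simp only [pb]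
        gcongr
    · obtain ⟨k, hk⟩ := h a (derivedSeries_antitone G hi ha)
      refine ⟨a ^ (k + 1), Subgroup.pow_mem _ ha _, 1, Subgroup.one_mem _, ?_⟩
      rw [mul_one, ← pow_mul, show (k + 1) * 2 = orderOf a + 1 by omega, pow_succ,
        pow_orderOf_eq_one, one_mul]
  · intro d s m
    refine ⟨bnd d (fun K => 3 * K * m) (s - 3), ?_⟩
    intro G _ X hG h
    refine cov_climb' hG (fun K => 3 * K * m) ?_
    intro n hn K hK a ha
    obtain ⟨l, hl, rfl⟩ := h a (derivedSeries_antitone G (by omega) ha)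
    obtain ⟨p, hp, hp'⟩ := comm_layer hG.2.1 _ hK l
    exact ⟨p, bd_mono (by gcongr) hp, hp'⟩
  · intro G _ hG h X hX
    obtain ⟨s, hs⟩ := hG.solvable
    have key : ∀ n, ∃ k, ∀ a ∈ derivedSeries G (n + 3), ∃ p ∈ Bd (X : Set G) k,
        p⁻¹ * a ∈ ⁅derivedSeries G (n + 3), (⊤ : Subgroup G)⁆ := by
      intro n
      have hT : ∀ T : Finset G, ∃ k, ∀ t ∈ T, t ∈ Bd (X : Set G) k := by
        intro T
        choose f hf using fun t : G => exists_bd hX t
        exact ⟨T.sup f, fun t ht => bd_mono (Finset.le_sup ht) (hf t)⟩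
      rcases h (n + 3) (by omega) with ⟨T, hT1, hT2⟩ | ⟨T, hT1⟩
      · obtain ⟨k, hk⟩ := hT T
        refine ⟨3 * k * T.toList.length, fun a ha => ?_⟩
        refine layer_fg hX (T := T.toList) (fun t ht => hk t (Finset.mem_toList.1 ht))
          (derivedSeries G (n + 2)) (fun t ht => hT1 t (Finset.mem_toList.1 ht)) ?_ (a := a) ha
        have : {t : G | t ∈ T.toList} = (T : Set G) := by ext; simp
        rw [this]
        exact hT2
      · obtain ⟨k, hk⟩ := hT T
        refine ⟨k + 48 * X.card, fun a ha => ?_⟩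
        obtain ⟨t, ht, b, hb, c, hc, rfl⟩ := hT1 a ha
        obtain ⟨p, hp, hp'⟩ := sq_layer hX n hb hc
        refine ⟨t * p, bd_mul (hk t ht) hp, ?_⟩
        convert hp' using 1
        group
    choose k hk using key
    let k' : ℕ → ℕ := fun _ => (Finset.range s).sup k
    have hG' : SolvGen X.card s G X := ⟨le_rfl, hX, hs⟩
    refine lt_of_le_of_lt (cov_climb' hG' k' ?_) (ENat.natCast_lt_top _)
    intro n hn K _ a ha
    obtain ⟨p, hp, hp'⟩ := hk n a ha
    exact ⟨p, bd_mono (Finset.le_sup (Finset.mem_range.2 (by omega))) hp, hp'⟩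

end Pool.Agent.Results.MP_738270_al.TwoDivisibleLayers
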